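import Mathlib.Topology.Constructions
import Mathlib.MeasureTheory.MeasurableSpace.Constructions
import Mathlib.Computability.TuringDegree

/-!
Turing determinacy for a class of sets of reals.
-/

namespace Pool.Agent.MP_057cde_lc

/-- Cantor space, with the product topology and the Borel sigma-algebra. -/
abbrev Cantor : Type := ℕ → Bool

/-- A real used as an oracle. -/
def orc (a : Cantor) : ℕ →. ℕ := fun n => Part.some (a n).toNat

/-- `a` is Turing reducible to `x`. -/
def LeT (a x : Cantor) : Prop := TuringReducible (orc a) (orc x)

/-- Turing invariant sets. -/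
def Invariant (B : Set Cantor) : Prop := ∀ x ∈ B, ∀ y, LeT x y → LeT y x → y ∈ B

/-- The first `n` bits of a real. -/
def init (a : Cantor) (n : ℕ) : List Bool := (List.range n).map a

/-- The Gale-Stewart game with payoff set `B` is determined: player I (even bits) has a strategy
that forces the play into `B`, or player II (odd bits) has one that forces it out of `B`. -/
def Determined (B : Set Cantor) : Prop :=
  (∃ σ : List Bool → Bool, ∀ a : Cantor, (∀ n, a (2 * n) = σ (init a (2 * n))) → a ∈ B) ∨
  (∃ τ : List Bool → Bool, ∀ a : Cantor, (∀ n, a (2 * n + 1) = τ (init a (2 * n + 1))) → a ∉ B)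

/-- The real with `a` on the even and `b` on the odd positions. -/
def oplus (a b : Cantor) : Cantor := fun n => if n % 2 = 0 then a (n / 2) else b (n / 2)

/-- A class of sets of reals that contains the Borel sets and is closed under complements,
intersections, continuous preimages and continuous images. -/
structure PointClass (Γ : Set (Set Cantor)) : Prop where
  borel : ∀ B, MeasurableSet B → B ∈ Γ
  compl : ∀ B ∈ Γ, Bᶜ ∈ Γ
  inter : ∀ B ∈ Γ, ∀ C ∈ Γ, B ∩ C ∈ Γ
  preimage : ∀ B ∈ Γ, ∀ f : Cantor → Cantor, Continuous f → f ⁻¹' B ∈ Γ
  image : ∀ B ∈ Γ, ∀ f : Cantor → Cantor, Continuous f → f '' B ∈ Γ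

/-- Turing determinacy for the sets in `Γ`. -/
def TD (Γ : Set (Set Cantor)) : Prop := ∀ B ∈ Γ, Invariant B → Determined B

/-- The instance of Turing determinacy for the set `B`. -/
def TDat (B : Set Cantor) : Prop := Invariant B → Determined B

/-- `a` is the pointwise limit of an approximation computable in `x`. -/
def LimitIn (a x : Cantor) : Prop :=
  ∃ g : Cantor, LeT g x ∧ ∀ n, ∃ s₀, ∀ s ≥ s₀, g (Nat.pair n s) = a n

/-- The reals `x` such that some member of `A` is limit computable but not computable in `x`. -/
def NewIn (A : Set Cantor) : Set Cantor := {x | ∃ a ∈ A, LimitIn a x ∧ ¬ LeT a x}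

end Pool.Agent.MP_057cde_lc
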