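import Mathlib.Topology.NoetherianSpace
import Mathlib.Algebra.Order.Ring.Star
import Mathlib.MeasureTheory.Constructions.Polish.Basic
import Mathlib.Combinatorics.SimpleGraph.Basic
import Mathlib.Data.Set.Finite.List
import Mathlib.Topology.Separation.Lemmas
import Pool.Agent.MP_057cde_lc.Defs
import Pool.Agent.MP_b427ce_lc.Basic

-- ======== part 0: formerly Pool.Agent.MP_057cde_lc.Comp
section MrgPart0

/-!
Turing functionals and the cone lemma.
-/

namespace Pool.Agent.MP_057cde_lc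

open Encodable Nat.Partrec Pool.Agent.MP_b427ce_lc

lemma init_eq_pre (a : Cantor) (n : ℕ) : init a n = pre a n := rfl

lemma encode_bool (b : Bool) : encode b = b.toNat := by cases b <;> rfl

lemma leT_iff {a x : Cantor} : LeT a x ↔ ComputableIn {orc x} a := by
  unfold LeT TuringReducible ComputableIn RecursiveIn
  have : (fun n => Part.bind (decode (α := ℕ) n) fun m => (orc a m).map encode) =
      fun n => Part.bind (decode (α := ℕ) n) fun m => (Part.some (a m)).map encode := by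
    funext n
    simp [orc, encode_bool]
  rw [this]

lemma LeT.refl (x : Cantor) : LeT x x := TuringReducible.refl _

lemma LeT.trans {a b c : Cantor} (h : LeT a b) (h' : LeT b c) : LeT a c :=
  TuringReducible.trans h h'

lemma c_self (x : ℕ → Bool) : ComputableIn {orc x} x := leT_iff.1 (LeT.refl x)

lemma cin_of_leT {α β : Type} [Primcodable α] [Primcodable β] {f : α → β} {x y : Cantor}
    (hf : ComputableIn {orc x} f) (h : LeT x y) : ComputableIn {orc y} f :=
  Nat.RecursiveIn.subst hf fun g hg => by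
    rw [Set.mem_singleton_iff.1 hg]
    exact RecursiveIn.iff_nat.1 h

lemma leT_comp {α : Type} [Primcodable α] {a x : Cantor} (h : LeT a x) {g : α → ℕ}
    (hg : ComputableIn {orc x} g) : ComputableIn {orc x} fun n => a (g n) :=
  c_comp (leT_iff.1 h) hg

/-- monotone partial computable functionals -/
def Fn : Type := {G : List Bool → ℕ →. ℕ //
  Partrec₂ G ∧ ∀ l l' n v, l <+: l' → v ∈ G l n → v ∈ G l' n}

lemma Fn.exists_code (G : Fn) :
    ∃ c : Code, ∀ l n, c.eval (Nat.pair (encode l) n) = G.1 l n := by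
  obtain ⟨c, hc⟩ := Code.exists_code.1 G.2.1
  refine ⟨c, fun l n => ?_⟩
  rw [hc]
  simp [Part.map_id']

instance : Countable Fn := by
  choose c hc using Fn.exists_code
  refine Function.Injective.countable (f := c) fun G G' h => Subtype.ext ?_
  funext l n
  rw [← hc, ← hc, h]

instance : Nonempty Fn :=
  ⟨⟨fun _ _ => Part.none, Partrec.none, fun _ _ _ _ _ h => h⟩⟩

/-- `G` with oracle `x` outputs the bit `b` on input `n` -/
def Out (G : Fn) (x : Cantor) (n : ℕ) (b : Bool) : Prop := ∃ k, b.toNat ∈ G.1 (pre x k) n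

lemma toNat_inj {b c : Bool} (h : b.toNat = c.toNat) : b = c := by
  cases b <;> cases c <;> simp_all

lemma Out.unique {G : Fn} {x : Cantor} {n : ℕ} {b c : Bool} (h : Out G x n b)
    (h' : Out G x n c) : b = c := by
  obtain ⟨k, hk⟩ := h
  obtain ⟨j, hj⟩ := h'
  exact toNat_inj (Part.mem_unique (G.2.2 _ _ _ _ (pre_isPrefix x (le_max_left k j)) hk)
    (G.2.2 _ _ _ _ (pre_isPrefix x (le_max_right k j)) hj))

lemma Out.near {G : Fn} {x : Cantor} {n : ℕ} {b : Bool} (h : Out G x n b) :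
    ∃ k, ∀ y : Cantor, (∀ i < k, y i = x i) → Out G y n b := by
  obtain ⟨k, hk⟩ := h
  exact ⟨k, fun y hy => ⟨k, by rwa [pre_congr hy]⟩⟩

lemma functional_orc (x : Cantor) : Functional x (orc x) := by
  refine ⟨fun l n => ((l[n]?.map Bool.toNat : Option ℕ) : Part ℕ), ?_, ?_, ?_⟩
  · refine Computable.ofOption (f := fun p : List Bool × ℕ => p.1[p.2]?.map Bool.toNat) ?_
    exact (Primrec.option_map (Primrec.list_getElem?.comp Primrec.fst Primrec.snd)
      ((Primrec.dom_bool Bool.toNat).comp Primrec.snd).to₂).to_comp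
  · intro l l' n v hl hv
    obtain ⟨t, rfl⟩ := hl
    simp only [Part.mem_coe, Option.mem_def, Option.map_eq_some_iff] at hv ⊢
    obtain ⟨b, hb, rfl⟩ := hv
    refine ⟨b, ?_, rfl⟩
    rw [List.getElem?_append_left (List.getElem?_eq_some_iff.1 hb).1, hb]
  · intro n v hv
    refine ⟨n + 1, ?_⟩
    simp only [orc, Part.mem_some_iff] at hv
    simp [pre, hv]

lemma LeT.exists_fn {a x : Cantor} (h : LeT a x) : ∃ G : Fn, ∀ n, Out G x n (a n) := by
  obtain ⟨G, h1, h2, h3⟩ := functional_of_recursiveIn x (functional_orc x)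
    (RecursiveIn.iff_nat.1 h)
  exact ⟨⟨G, h1, h2⟩, fun n => h3 n _ (by simp [orc])⟩

/-- unbounded search through a computable list of finite oracles -/
lemma leT_of_search (G : Fn) {w a : Cantor} {E : ℕ → List Bool}
    (hE : ComputableIn {orc w} E) (h1 : ∀ n, ∃ k, (a n).toNat ∈ G.1 (E k) n)
    (h2 : ∀ n k v, v ∈ G.1 (E k) n → v = (a n).toNat) : LeT a w := by
  obtain ⟨c, hc⟩ := G.exists_code
  let q : ℕ → ℕ → Option ℕ := fun n m =>
    Code.evaln (Nat.unpair m).2 c (Nat.pair (encode (E (Nat.unpair m).1)) n)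
  have hq : ComputableIn {orc w} fun p : ℕ × ℕ => q p.1 p.2 := by
    unfold q; fun_prop
  have hex : ∀ n, ∃ m, (q n m).isSome = true := by
    intro n
    obtain ⟨k, hk⟩ := h1 n
    rw [← hc, Code.evaln_complete] at hk
    obtain ⟨s, hs⟩ := hk
    refine ⟨Nat.pair k s, ?_⟩
    simp only [q, Nat.unpair_pair]
    rw [Option.mem_def.1 hs]; rfl
  have hf := c_find (O := {orc w}) (p := fun n m => (q n m).isSome) (by fun_prop) hex
  rw [leT_iff]
  refine cin_of_eq (f := fun n => eqB ((q n (Nat.find (hex n))).getD 0) 1) ?_ fun n => ?_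
  · refine c_eqB (c_optGetD ?_ (c_const 0)) (c_const 1)
    exact c_comp (f := fun p : ℕ × ℕ => q p.1 p.2) hq (c_pair c_id hf)
  · obtain ⟨v, hv⟩ := Option.isSome_iff_exists.1 (Nat.find_spec (hex n))
    have h3 : v ∈ c.eval _ := Code.evaln_sound (Option.mem_def.2 hv)
    rw [hc] at h3
    rw [hv, h2 _ _ _ h3]
    cases a n <;> simp [eqB]

lemma countable_below (w : Cantor) : {a | LeT a w}.Countable := by
  classical
  refine (Set.countable_range fun G : Fn => fun n => decide (Out G w n true)).mono ?_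
  intro a ha
  obtain ⟨G, hG⟩ := LeT.exists_fn ha
  refine ⟨G, funext fun n => ?_⟩
  cases h : a n
  · simp only [decide_eq_false_iff_not]
    intro h'
    have := (hG n).unique h'
    simp [h] at this
  · simpa [h] using hG n

/-- the join of two reals -/
def join (w g : Cantor) : Cantor := fun n => cond (eqB (n % 2) 0) (w (n / 2)) (g (n / 2))

lemma left_le_join (w g : Cantor) : LeT w (join w g) := by
  rw [leT_iff]
  refine cin_of_eq (f := fun n => join w g (2 * n))
    (leT_comp (LeT.refl _) (by fun_prop)) fun n => ?_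
  simp [join, eqB]

lemma right_le_join (w g : Cantor) : LeT g (join w g) := by
  rw [leT_iff]
  refine cin_of_eq (f := fun n => join w g (2 * n + 1))
    (leT_comp (LeT.refl _) (by fun_prop)) fun n => ?_
  have h1 : (2 * n + 1) % 2 = 1 := by omega
  have h2 : (2 * n + 1) / 2 = n := by omega
  simp [join, eqB, h1, h2]

/-- the play in which the bits of parity `j` are given by `σ` and the others are read off `x` -/
def play (σ : List Bool → Bool) (j : ℕ) (x : Cantor) : ℕ → List Bool :=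
  natIter [] fun n l => l ++ [cond (eqB (n % 2) j) (σ l) (x (n / 2))]

lemma length_play (σ : List Bool → Bool) (j : ℕ) (x : Cantor) (n : ℕ) :
    (play σ j x n).length = n := by
  induction n with
  | zero => rfl
  | succ n ih => simp only [play, natIter] at ih ⊢; simp [ih]

lemma exists_play (σ : List Bool → Bool) (j : ℕ) (x : ℕ → Bool)
    (hσ : LeT (fun m => σ ((decode (α := List Bool) m).getD [])) x) :
    ∃ a : Cantor, LeT a x ∧ ∀ n, a n = cond (eqB (n % 2) j) (σ (pre a n)) (x (n / 2)) := by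
  have hσ' : ComputableIn {orc x} σ :=
    cin_of_eq (leT_comp hσ (g := fun l : List Bool => encode l) (by fun_prop)) fun l => by simp
  have hx := c_self x
  have hp : ComputableIn {orc x} (play σ j x) := by
    unfold play; fun_prop
  let a : Cantor := fun n => cond (eqB (n % 2) j) (σ (play σ j x n)) (x (n / 2))
  have ha : ∀ n, pre a n = play σ j x n := by
    intro n
    induction n with
    | zero => rfl
    | succ n ih => rw [pre_succ, ih]; rfl
  refine ⟨a, leT_iff.2 (by unfold a; fun_prop), fun n => by rw [ha]⟩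

/-- the cone lemma for a single set -/
lemma cone_of_cofinal {B : Set Cantor} (hI : Invariant B) (hD : Determined B)
    (hc : ∀ w, ∃ x ∈ B, LeT w x) : ∃ z, ∀ x, LeT z x → x ∈ B := by
  rcases hD with ⟨σ, hσ⟩ | ⟨τ, hτ⟩
  · refine ⟨fun m => σ ((decode (α := List Bool) m).getD []), fun x hx => ?_⟩
    obtain ⟨a, h1, h2⟩ := exists_play σ 0 x hx
    refine hI a (hσ a fun n => ?_) x h1 ?_
    · rw [h2, init_eq_pre]; simp [eqB]
    · rw [leT_iff]
      refine cin_of_eq (f := fun n => a (2 * n + 1))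
        (leT_comp (LeT.refl _) (by fun_prop)) fun n => ?_
      have e1 : (2 * n + 1) % 2 = 1 := by omega
      have e2 : (2 * n + 1) / 2 = n := by omega
      rw [h2]; simp [eqB, e1, e2]
  · exfalso
    obtain ⟨x, hxB, hx⟩ := hc fun m => τ ((decode (α := List Bool) m).getD [])
    obtain ⟨a, h1, h2⟩ := exists_play τ 1 x hx
    refine hτ a (fun n => ?_) (hI x hxB a ?_ h1)
    · have e1 : (2 * n + 1) % 2 = 1 := by omega
      rw [h2, init_eq_pre]; simp [eqB, e1]
    · rw [leT_iff]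
      refine cin_of_eq (f := fun n => a (2 * n))
        (leT_comp (LeT.refl _) (by fun_prop)) fun n => ?_
      rw [h2]; simp [eqB]

end Pool.Agent.MP_057cde_lc

end MrgPart0

-- ======== part 1: formerly Pool.Agent.MP_057cde_lc.Perf
section MrgPart1

/-!
Perfect subsets of Cantor space and a fusion lemma.
-/

namespace Pool.Agent.MP_057cde_lc

open Set Filter Topology Pool.Agent.MP_b427ce_lc

lemma box_mem_nhds (x : Cantor) (n : ℕ) : {y : Cantor | ∀ i < n, y i = x i} ∈ 𝓝 x := by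
  have : {y : Cantor | ∀ i < n, y i = x i} = ⋂ i ∈ Finset.range n, {y : Cantor | y i = x i} := by
    ext y; simp
  rw [this, Filter.biInter_finset_mem]
  intro i _
  exact ((isOpen_discrete ({x i} : Set Bool)).preimage
    (continuous_apply (A := fun _ : ℕ => Bool) i)).mem_nhds (Set.mem_singleton _)

lemma exists_box {x : Cantor} {U : Set Cantor} (hU : U ∈ 𝓝 x) :
    ∃ n, ∀ y : Cantor, (∀ i < n, y i = x i) → y ∈ U := by
  by_contra h
  push Not at h
  choose y hy hyU using h
  have : Tendsto y atTop (𝓝 x) := by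
    rw [tendsto_pi_nhds]
    intro i
    refine tendsto_const_nhds.congr' ?_
    filter_upwards [eventually_gt_atTop i] with n hn using (hy n i hn).symm
  obtain ⟨n, hn⟩ := (this.eventually hU).exists
  exact hyU n hn

lemma isOpen_box (x : Cantor) (n : ℕ) : IsOpen {y : Cantor | ∀ i < n, y i = x i} := by
  rw [isOpen_iff_mem_nhds]
  intro y hy
  filter_upwards [box_mem_nhds y n] with z hz i hi
  rw [hz i hi, hy i hi]

lemma isClosed_box (x : Cantor) (n : ℕ) : IsClosed {y : Cantor | ∀ i < n, y i = x i} := by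
  rw [← isOpen_compl_iff, isOpen_iff_mem_nhds]
  intro y hy
  filter_upwards [box_mem_nhds y n] with z hz hz'
  exact hy fun i hi => by rw [← hz i hi, hz' i hi]

lemma continuous_of_local {f : Cantor → Cantor}
    (h : ∀ n, ∃ k, ∀ s s' : Cantor, (∀ i < k, s' i = s i) → f s' n = f s n) : Continuous f := by
  refine continuous_pi fun n => continuous_iff_continuousAt.2 fun s => ?_
  obtain ⟨k, hk⟩ := h n
  refine tendsto_const_nhds.congr' ?_
  filter_upwards [box_mem_nhds s k] with s' hs' using (hk s s' hs').symm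

lemma perfect_univ : Perfect (univ : Set Cantor) := by
  refine ⟨isClosed_univ, preperfect_iff_nhds.2 fun x _ U hU => ?_⟩
  obtain ⟨n, hn⟩ := exists_box hU
  refine ⟨Function.update x n (!x n), ⟨hn _ fun i hi => ?_, trivial⟩, fun h => ?_⟩
  · rw [Function.update_of_ne hi.ne]
  · have := congrFun h n
    simp at this

lemma perfect_image {f : Cantor → Cantor} (hf : Continuous f) {Q : Set Cantor} (hQ : Perfect Q)
    (hi : InjOn f Q) : Perfect (f '' Q) := by
  refine ⟨(hQ.closed.isCompact.image hf).isClosed, preperfect_iff_nhds.2 ?_⟩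
  rintro _ ⟨s, hs, rfl⟩ U hU
  obtain ⟨s', ⟨h1, h2⟩, h3⟩ := preperfect_iff_nhds.1 hQ.acc s hs _ (hf.continuousAt hU)
  exact ⟨f s', ⟨h1, s', h2, rfl⟩, fun h => h3 (hi h2 hs h)⟩

lemma perfect_preimage {f : Cantor → Cantor} (hf : Continuous f) {Q K : Set Cantor}
    (hQ : IsClosed Q) (hi : InjOn f Q) (hK : Perfect K) (hs : K ⊆ f '' Q) :
    Perfect (Q ∩ f ⁻¹' K) := by
  refine ⟨hQ.inter (hK.closed.preimage hf), preperfect_iff_nhds.2 ?_⟩
  rintro s ⟨h1, h2⟩ U hU
  have hc : IsClosed (f '' (Q \ interior U)) :=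
    ((hQ.sdiff isOpen_interior).isCompact.image hf).isClosed
  have hn : f s ∉ f '' (Q \ interior U) := by
    rintro ⟨s', h3, h4⟩
    rw [hi h3.1 h1 h4] at h3
    exact h3.2 (mem_interior_iff_mem_nhds.2 hU)
  obtain ⟨y, ⟨h3, h4⟩, h5⟩ := preperfect_iff_nhds.1 hK.acc _ h2 _ (hc.isOpen_compl.mem_nhds hn)
  obtain ⟨s', h6, rfl⟩ := hs h4
  refine ⟨s', ⟨?_, h6, h4⟩, fun h => h5 (by rw [h])⟩
  by_contra h7
  exact h3 ⟨s', ⟨h6, fun h8 => h7 (interior_subset h8)⟩, rfl⟩

lemma perfect_box_inter {Q : Set Cantor} (hQ : Perfect Q) (x : Cantor) (n : ℕ) :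
    Perfect ({y : Cantor | ∀ i < n, y i = x i} ∩ Q) :=
  ⟨(isClosed_box x n).inter hQ.closed, hQ.acc.open_inter (isOpen_box x n)⟩

/-- a point in a decreasing chain of perfect sets -/
lemma exists_point (T : ℕ → Cantor → Prop)
    (h : ∀ e (Q : Set Cantor), Perfect Q → Q.Nonempty →
      ∃ Q' ⊆ Q, Perfect Q' ∧ Q'.Nonempty ∧ ∀ s ∈ Q', T e s) : ∃ s, ∀ e, T e s := by
  let X := {Q : Set Cantor // Perfect Q ∧ Q.Nonempty}
  have h' : ∀ e (Q : X), ∃ Q' : X, Q'.1 ⊆ Q.1 ∧ ∀ s ∈ Q'.1, T e s := by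
    intro e Q
    obtain ⟨Q', h1, h2, h3, h4⟩ := h e Q.1 Q.2.1 Q.2.2
    exact ⟨⟨Q', h2, h3⟩, h1, h4⟩
  choose f hf1 hf2 using h'
  let Q : ℕ → X := fun n => Nat.rec ⟨univ, perfect_univ, univ_nonempty⟩ (fun e t => f e t) n
  obtain ⟨s, hs⟩ := IsCompact.nonempty_iInter_of_sequence_nonempty_isCompact_isClosed
    (fun n => (Q n).1) (fun n => hf1 n (Q n)) (fun n => (Q n).2.2) isCompact_univ
    fun n => (Q n).2.1.closed
  exact ⟨s, fun e => hf2 e (Q e) s (mem_iInter.1 hs (e + 1))⟩

section fusion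

variable {P : Type} (le : P → P → Prop) (R : ℕ → P → P → Prop)

lemma refine_finite (hr : ∀ p, le p p) (ht : ∀ p q r, le p q → le q r → le p r)
    (hd : ∀ j p q, ∃ p' q', le p' p ∧ le q' q ∧ R j p' q')
    (hm : ∀ j p q p' q', R j p q → le p' p → le q' q → R j p' q')
    {T : Set (ℕ × List Bool × List Bool)} (hT : T.Finite) (g : List Bool → P) :
    ∃ g' : List Bool → P, (∀ l, le (g' l) (g l)) ∧
      ∀ t ∈ T, t.2.1 ≠ t.2.2 → R t.1 (g' t.2.1) (g' t.2.2) := by
  classical
  induction T, hT using Set.Finite.induction_on with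
  | empty => exact ⟨g, fun l => hr _, by simp⟩
  | @insert t T _ _ ih =>
    obtain ⟨g₁, h1, h2⟩ := ih
    by_cases hne : t.2.1 = t.2.2
    · refine ⟨g₁, h1, ?_⟩
      rintro t' (rfl | ht') hne'
      · exact absurd hne hne'
      · exact h2 t' ht' hne'
    obtain ⟨p', q', h3, h4, h5⟩ := hd t.1 (g₁ t.2.1) (g₁ t.2.2)
    let g₂ : List Bool → P := fun l => if l = t.2.1 then p' else if l = t.2.2 then q' else g₁ l
    have hle : ∀ l, le (g₂ l) (g₁ l) := by
      intro l
      simp only [g₂]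
      split_ifs with e1 e2
      · rw [e1]; exact h3
      · rw [e2]; exact h4
      · exact hr _
    refine ⟨g₂, fun l => ht _ _ _ (hle l) (h1 l), ?_⟩
    rintro t' (rfl | ht') hne'
    · simpa [g₂, Ne.symm hne'] using h5
    · exact hm _ _ _ _ _ (h2 t' ht' hne') (hle _) (hle _)

lemma fusion (hr : ∀ p, le p p) (ht : ∀ p q r, le p q → le q r → le p r)
    (hd : ∀ j p q, ∃ p' q', le p' p ∧ le q' q ∧ R j p' q')
    (hm : ∀ j p q p' q', R j p q → le p' p → le q' q → R j p' q') (p₀ : P) :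
    ∃ f : ℕ → Cantor → P, (∀ s, f 0 s = p₀) ∧ (∀ n m s, n ≤ m → le (f m s) (f n s)) ∧
      (∀ n s s', (∀ i < n, s' i = s i) → f n s' = f n s) ∧
      ∀ n s s' j, j < n → (∃ i < n, s i ≠ s' i) → R j (f n s) (f n s') := by
  have hfin : ∀ n : ℕ, {t : ℕ × List Bool × List Bool |
      t.1 ≤ n ∧ t.2.1.length = n + 1 ∧ t.2.2.length = n + 1}.Finite := by
    intro n
    exact ((finite_le_nat n).prod ((List.finite_length_eq Bool (n + 1)).prod
      (List.finite_length_eq Bool (n + 1)))).subset fun t h => ⟨h.1, h.2.1, h.2.2⟩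
  choose F hF1 hF2 using fun n (g : List Bool → P) =>
    refine_finite le R hr ht hd hm (hfin n) fun l => g l.dropLast
  let g : ℕ → List Bool → P := fun n => Nat.rec (fun _ => p₀) (fun n t => F n t) n
  refine ⟨fun n s => g n (pre s n), fun s => rfl, fun n m s h => ?_,
    fun n s s' h => by simp only [pre_congr h], fun n s s' j hj ⟨i, hi, hne⟩ => ?_⟩
  · induction m, h using Nat.le_induction with
    | base => exact hr _
    | succ m _ ih =>
      refine ht _ _ _ ?_ ih
      have := hF1 m (g m) (pre s (m + 1))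
      rwa [show (pre s (m + 1)).dropLast = pre s m by rw [pre_succ]; simp] at this
  · obtain ⟨n, rfl⟩ : ∃ k, n = k + 1 := ⟨n - 1, by omega⟩
    refine hF2 n (g n) (j, pre s (n + 1), pre s' (n + 1)) ⟨by simp; omega, by simp, by simp⟩ ?_
    intro h
    apply hne
    have := congrArg (fun l => l.getD i false) h
    simpa only [getD_pre _ hi] using this

end fusion

end Pool.Agent.MP_057cde_lc

end MrgPart1

-- ======== part 2: formerly Pool.Agent.MP_057cde_lc.Cofinal
section MrgPart2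

/-!
For uncountable `A` the set `NewIn A` is Turing invariant and cofinal in the Turing degrees.
-/

namespace Pool.Agent.MP_057cde_lc

open Encodable Pool.Agent.MP_b427ce_lc

lemma invariant_newIn (A : Set Cantor) : Invariant (NewIn A) := by
  rintro x ⟨a, ha, ⟨g, hg, hl⟩, hn⟩ y hxy hyx
  exact ⟨a, ha, ⟨g, hg.trans hxy, hl⟩, fun h => hn (h.trans hyx)⟩

/-- column `0` is `w`, column `i + 1` is constantly `a i` -/
def target (w a : ℕ → Bool) (p : ℕ) : Bool :=
  cond (eqB (Nat.unpair p).1 0) (w (Nat.unpair p).2) (a ((Nat.unpair p).1 - 1))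

/-- finite extension that respects the first `e + 1` columns -/
def Ext (w a : ℕ → Bool) (e : ℕ) (s t : (ℕ → Bool) × ℕ) : Prop :=
  s.2 ≤ t.2 ∧ (∀ p < s.2, t.1 p = s.1 p) ∧
    ∀ p, s.2 ≤ p → p < t.2 → (Nat.unpair p).1 ≤ e → t.1 p = target w a p

lemma ext_step (w a : ℕ → Bool) (G : Fn) (e : ℕ) (s : (ℕ → Bool) × ℕ) :
    ∃ t, s.2 < t.2 ∧ Ext w a e s t ∧
      ((∃ n v, v ∈ G.1 (pre t.1 t.2) n ∧ v ≠ (a n).toNat) ∨
        ∀ t', Ext w a e s t' → ∀ n v, v ∈ G.1 (pre t'.1 t'.2) n → v = (a n).toNat) := by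
  by_cases h : ∀ t', Ext w a e s t' → ∀ n v, v ∈ G.1 (pre t'.1 t'.2) n → v = (a n).toNat
  · refine ⟨(fun p => if p < s.2 then s.1 p else target w a p, s.2 + 1), by simp,
      ⟨by simp, fun p hp => by simp [hp], fun p hp _ _ => by simp [Nat.not_lt.2 hp]⟩, Or.inr h⟩
  · push Not at h
    obtain ⟨t, ⟨h1, h2, h3⟩, n, v, hv, hne⟩ := h
    refine ⟨(fun p => if p < t.2 then t.1 p else target w a p, t.2 + 1), by simp; omega,
      ⟨by simp; omega, fun p hp => ?_, fun p hp _ he => ?_⟩, Or.inl ⟨n, v, ?_, hne⟩⟩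
    · have : p < t.2 := by omega
      simp [this, h2 p hp]
    · by_cases hp' : p < t.2
      · simp [hp', h3 p hp hp' he]
      · simp [hp']
    · refine G.2.2 _ _ _ _ ?_ hv
      have : pre t.1 t.2 = pre (fun p => if p < t.2 then t.1 p else target w a p) t.2 :=
        pre_congr fun j hj => by simp [hj]
      rw [this]
      exact pre_isPrefix _ (by simp)

lemma exists_new (w a : ℕ → Bool) (ha : ¬ LeT a w) :
    ∃ x, LeT w x ∧ LimitIn a x ∧ ¬ LeT a x := by
  obtain ⟨G, hG⟩ := exists_surjective_nat Fn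
  choose f hf1 hf2 hf3 using fun e s => ext_step w a (G e) e s
  let s : ℕ → (ℕ → Bool) × ℕ := fun n => Nat.rec (target w a, 0) (fun e t => f e t) n
  have hs : ∀ e, s (e + 1) = f e (s e) := fun e => rfl
  have hmono : StrictMono fun e => (s e).2 :=
    strictMono_nat_of_lt_succ fun e => by rw [hs]; exact hf1 e _
  have hagree : ∀ e j, e ≤ j → ∀ p < (s e).2, (s j).1 p = (s e).1 p := by
    intro e j hj p hp
    induction j, hj using Nat.le_induction with
    | base => rfl
    | succ j hj ih =>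
      rw [hs, (hf2 j (s j)).2.1 p (lt_of_lt_of_le hp (hmono.monotone hj)), ih]
  let x : ℕ → Bool := fun p => (s (p + 1)).1 p
  have hx : ∀ e, ∀ p < (s e).2, x p = (s e).1 p := by
    intro e p hp
    have h1 : p < (s (p + 1)).2 := lt_of_lt_of_le (Nat.lt_succ_self p) (hmono.le_apply)
    rcases le_total e (p + 1) with h | h
    · exact hagree e _ h p hp
    · exact (hagree _ e h p h1).symm
  have htar : ∀ e p, (s e).2 ≤ p → (Nat.unpair p).1 ≤ e → x p = target w a p := by
    intro e p hp he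
    have h1 : p < (s (p + 1)).2 := lt_of_lt_of_le (Nat.lt_succ_self p) (hmono.le_apply)
    have key : ∀ j, e ≤ j → p < (s j).2 → x p = target w a p := by
      intro j hj
      induction j, hj using Nat.le_induction with
      | base => intro h; omega
      | succ j hj ih =>
        intro h
        by_cases h' : p < (s j).2
        · exact ih h'
        · rw [hx (j + 1) p h, hs]
          exact (hf2 j (s j)).2.2 p (by omega) (by rwa [hs] at h) (by omega)
    exact key (max e (p + 1)) (le_max_left _ _)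
      (lt_of_lt_of_le h1 (hmono.monotone (le_max_right e (p + 1))))
  have hxx := c_self x
  refine ⟨x, ?_, ⟨fun m => x (Nat.pair ((Nat.unpair m).1 + 1) (Nat.unpair m).2), ?_, ?_⟩, ?_⟩
  · rw [leT_iff]
    refine cin_of_eq (f := fun n => x (Nat.pair 0 n)) (by fun_prop) fun n => ?_
    rw [htar 0 _ (Nat.zero_le _) (by simp)]
    simp [target, eqB]
  · rw [leT_iff]; fun_prop
  · intro n
    refine ⟨(s (n + 1)).2, fun j hj => ?_⟩
    simp only [Nat.unpair_pair]
    rw [htar (n + 1) _ (le_trans hj (Nat.right_le_pair _ _)) (by simp)]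
    simp [target, eqB]
  · intro hax
    obtain ⟨H, hH⟩ := hax.exists_fn
    obtain ⟨e, rfl⟩ := hG H
    rcases hf3 e (s e) with ⟨n, v, hv, hne⟩ | h
    · rw [← hs, ← pre_congr (hx (e + 1))] at hv
      obtain ⟨k, hk⟩ := hH n
      exact hne (Part.mem_unique
        ((G e).2.2 _ _ _ _ (pre_isPrefix x (le_max_left _ k)) hv)
        ((G e).2.2 _ _ _ _ (pre_isPrefix x (le_max_right (s (e + 1)).2 k)) hk))
    · apply ha
      let fill : List Bool → ℕ → Bool := fun l p =>
        cond (leB (s e).2 p)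
          (cond (leB (Nat.unpair p).1 e) (target w (fun i => (pre a e).getD i false) p)
            (l.getD p false))
          ((pre (s e).1 (s e).2).getD p false)
      have htt : ∀ p, (Nat.unpair p).1 ≤ e →
          target w (fun i => (pre a e).getD i false) p = target w a p := by
        intro p hp
        unfold target
        by_cases h0 : (Nat.unpair p).1 = 0
        · simp [eqB, h0]
        · have : (Nat.unpair p).1 - 1 < e := by omega
          simp only [getD_pre a this]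
      have hw := c_self w
      refine leT_of_search (G e) (E := fun m => pre (fill ((decode (α := List Bool) m).getD []))
        (max (s e).2 ((decode (α := List Bool) m).getD []).length)) ?_ (fun n => ?_)
        fun n k v hv => h (_, _) ⟨le_max_left _ _, fun p hp => ?_, fun p hp _ he => ?_⟩ n v hv
      · unfold fill target; fun_prop
      · obtain ⟨k, hk⟩ := hH n
        refine ⟨encode (pre x (max (s e).2 k)), ?_⟩
        simp only [encodek, Option.getD_some, length_pre, ← max_assoc, max_self]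
        have : pre (fill (pre x (max (s e).2 k))) (max (s e).2 k) = pre x (max (s e).2 k) := by
          refine pre_congr fun p hp => ?_
          unfold fill
          by_cases h1 : (s e).2 ≤ p
          · by_cases h2 : (Nat.unpair p).1 ≤ e
            · simp only [leB_iff.2 h1, leB_iff.2 h2, cond_true]
              rw [htt p h2, htar e p h1 h2]
            · simp only [leB_iff.2 h1, leB_false_iff.2 (Nat.not_le.1 h2), cond_true, cond_false]
              exact getD_pre x hp false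
          · simp only [leB_false_iff.2 (Nat.not_le.1 h1), cond_false]
            rw [getD_pre _ (Nat.not_le.1 h1), hx e p (Nat.not_le.1 h1)]
        rw [this]
        exact (G e).2.2 _ _ _ _ (pre_isPrefix x (le_max_right _ _)) hk
      · dsimp only [fill]
        rw [leB_false_iff.2 hp]
        exact getD_pre _ hp false
      · dsimp only [fill]
        rw [leB_iff.2 hp, leB_iff.2 he]
        exact htt p he

lemma cofinal_newIn {A : Set Cantor} (hA : ¬ A.Countable) (w : Cantor) :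
    ∃ x ∈ NewIn A, LeT w x := by
  have : ∃ a ∈ A, ¬ LeT a w := by
    by_contra h
    push Not at h
    exact hA ((countable_below w).mono h)
  obtain ⟨a, haA, ha⟩ := this
  obtain ⟨x, h1, h2, h3⟩ := exists_new w a ha
  exact ⟨x, ⟨a, haA, h2, h3⟩, h1⟩

end Pool.Agent.MP_057cde_lc

end MrgPart2

-- ======== part 3: formerly Pool.Agent.MP_057cde_lc.Scheme
section MrgPart3

/-!
If `A` is Marczewski null then the complement of `NewIn A` is cofinal.  A condition fixes
finitely many columns of a real.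
-/

namespace Pool.Agent.MP_057cde_lc

open Set Pool.Agent.MP_b427ce_lc

/-- `x` agrees with the condition `p` on its columns -/
def Mem (p : Cantor × ℕ) (x : Cantor) : Prop := ∀ i, (Nat.unpair i).1 < p.2 → x i = p.1 i

/-- extension of conditions -/
def Le (q p : Cantor × ℕ) : Prop := p.2 ≤ q.2 ∧ Mem p q.1

lemma Le.refl (p : Cantor × ℕ) : Le p p := ⟨le_rfl, fun _ _ => rfl⟩

lemma Le.mem {q p : Cantor × ℕ} (h : Le q p) {x : Cantor} (hx : Mem q x) : Mem p x :=
  fun i hi => by rw [hx i (lt_of_lt_of_le hi h.1), h.2 i hi]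

lemma Le.trans {p q r : Cantor × ℕ} (h : Le p q) (h' : Le q r) : Le p r :=
  ⟨h'.1.trans h.1, h'.mem h.2⟩

/-- `a` is the limit of the approximation computed by `G` from `x` -/
def Lim (G : Fn) (x a : Cantor) : Prop := ∀ n, ∃ s₀, ∀ s ≥ s₀, Out G x (Nat.pair n s) (a n)

/-- from stage `s₀` on the approximation to bit `n` never takes the value opposite to `i` -/
def Stab (G : Fn) (n : ℕ) (i : Bool) (s₀ : ℕ) (x : Cantor) : Prop :=
  ∀ s ≥ s₀, ¬ Out G x (Nat.pair n s) (!i)

/-- the condition decides bit `n` of the limit -/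
def Dec (G : Fn) (p : Cantor × ℕ) (n : ℕ) (i : Bool) : Prop :=
  ∃ s₀, ∀ x, Mem p x → Stab G n i s₀ x

lemma Dec.mono {G : Fn} {p q : Cantor × ℕ} {n : ℕ} {i : Bool} (h : Dec G p n i) (hq : Le q p) :
    Dec G q n i := by
  obtain ⟨s₀, hs⟩ := h
  exact ⟨s₀, fun x hx => hs x (hq.mem hx)⟩

lemma Dec.eq {G : Fn} {p : Cantor × ℕ} {n : ℕ} {i : Bool} (h : Dec G p n i) {x a : Cantor}
    (hx : Mem p x) (ha : Lim G x a) : a n = i := by
  obtain ⟨s₀, hs⟩ := h
  obtain ⟨s₁, hs₁⟩ := ha n
  by_contra hne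
  refine hs x hx (max s₀ s₁) (le_max_left _ _) ?_
  have : (!i) = a n := by cases i <;> cases h : a n <;> simp_all
  rw [this]
  exact hs₁ _ (le_max_right _ _)

/-- dense and closed under extension -/
def DO (A : Cantor × ℕ → Prop) : Prop :=
  (∀ p, ∃ q, Le q p ∧ A q) ∧ ∀ p q, A p → Le q p → A q

lemma DO.and {A B : Cantor × ℕ → Prop} (hA : DO A) (hB : DO B) : DO fun p => A p ∧ B p := by
  refine ⟨fun p => ?_, fun p q h hq => ⟨hA.2 p q h.1 hq, hB.2 p q h.2 hq⟩⟩
  obtain ⟨q, h1, h2⟩ := hA.1 p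
  obtain ⟨r, h3, h4⟩ := hB.1 q
  exact ⟨r, h3.trans h1, hA.2 q r h2 h3, h4⟩

lemma do_len (j : ℕ) : DO fun p => j ≤ p.2 :=
  ⟨fun p => ⟨(p.1, max p.2 j), ⟨le_max_left _ _, fun _ _ => rfl⟩, le_max_right _ _⟩,
    fun _ _ h hq => h.trans hq.1⟩

lemma do_stab (G : Fn) (n : ℕ) (i : Bool) (s₀ : ℕ) : DO fun q =>
    (∀ x, Mem q x → Stab G n i s₀ x) ∨ ∀ x, Mem q x → ¬ Stab G n i s₀ x := by
  refine ⟨fun p => ?_, fun p q h hq => h.imp (fun h x hx => h x (hq.mem hx))
    fun h x hx => h x (hq.mem hx)⟩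
  by_cases h : ∀ x, Mem p x → Stab G n i s₀ x
  · exact ⟨p, Le.refl p, Or.inl h⟩
  · simp only [Stab, not_forall, not_not] at h
    obtain ⟨x, hx, s, hs, ho⟩ := h
    obtain ⟨k, hk⟩ := ho.near
    refine ⟨(x, max p.2 k), ⟨le_max_left _ _, hx⟩, Or.inr fun y hy h => h s hs (hk y ?_)⟩
    intro m hm
    exact hy m (lt_of_le_of_lt (Nat.unpair_left_le m) (lt_of_lt_of_le hm (le_max_right _ _)))

lemma do_dec (G : Fn) (n : ℕ) : DO fun q =>
    (∃ i, Dec G q n i) ∨ ∀ r, Le r q → ∀ i, ¬ Dec G r n i := by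
  refine ⟨fun p => ?_, fun p q h hq => h.imp (fun ⟨i, h⟩ => ⟨i, h.mono hq⟩)
    fun h r hr => h r (hr.trans hq)⟩
  by_cases h : ∀ r, Le r p → ∀ i, ¬ Dec G r n i
  · exact ⟨p, Le.refl p, Or.inr h⟩
  · push Not at h
    obtain ⟨r, hr, i, hi⟩ := h
    exact ⟨r, hr, Or.inl ⟨i, hi⟩⟩

/-- below `q` decisions are consistent, dense, and any two conditions can be split -/
def Split (G : Fn) (q : Cantor × ℕ) : Prop :=
  (∀ r, Le r q → ∀ n, ¬ (Dec G r n true ∧ Dec G r n false)) ∧
  (∀ r, Le r q → ∀ n, ∃ r', Le r' r ∧ ∃ i, Dec G r' n i) ∧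
  ∀ r₀ r₁, Le r₀ q → Le r₁ q → ∃ r₀' r₁' n i, Le r₀' r₀ ∧ Le r₁' r₁ ∧
    Dec G r₀' n i ∧ Dec G r₁' n (!i)

lemma do_state (G : Fn) : DO fun q =>
    (∃ n, Dec G q n true ∧ Dec G q n false) ∨ (∃ n, ∀ r, Le r q → ∀ i, ¬ Dec G r n i) ∨
    (∃ c < q.2, ∀ r, Le r q → ∀ n i, Dec G r n i → q.1 (Nat.pair c n) = i) ∨ Split G q := by
  classical
  refine ⟨fun p => ?_, fun p q h hq => ?_⟩
  · by_cases h1 : ∀ r, Le r p → ∀ n, ¬ (Dec G r n true ∧ Dec G r n false)
    swap
    · simp only [not_forall, not_not] at h1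
      obtain ⟨r, hr, n, hn⟩ := h1
      exact ⟨r, hr, Or.inl ⟨n, hn⟩⟩
    by_cases h2 : ∀ r, Le r p → ∀ n, ∃ r', Le r' r ∧ ∃ i, Dec G r' n i
    swap
    · push Not at h2
      obtain ⟨r, hr, n, hn⟩ := h2
      exact ⟨r, hr, Or.inr (Or.inl ⟨n, hn⟩)⟩
    by_cases h3 : ∀ r₀ r₁, Le r₀ p → Le r₁ p → ∃ r₀' r₁' n i, Le r₀' r₀ ∧ Le r₁' r₁ ∧
      Dec G r₀' n i ∧ Dec G r₁' n (!i)
    · exact ⟨p, Le.refl p, Or.inr (Or.inr (Or.inr ⟨h1, h2, h3⟩))⟩
    push Not at h3
    obtain ⟨r₀, r₁, h0, h1', h3⟩ := h3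
    choose! r' hr' a ha using h2 r₁ h1'
    have key : ∀ r, Le r r₀ → ∀ n i, Dec G r n i → a n = i := by
      intro r hr n i hi
      by_contra hne
      refine h3 r (r' n) n i hr (hr' n) hi ?_
      have : (!i) = a n := by cases i <;> cases h : a n <;> simp_all
      rw [this]; exact ha n
    have hle : Le (fun m => if (Nat.unpair m).1 < r₀.2 then r₀.1 m else a (Nat.unpair m).2,
        r₀.2 + 1) r₀ := ⟨by simp, fun m hm => by simp [hm]⟩
    refine ⟨_, hle.trans h0, Or.inr (Or.inr (Or.inl ⟨r₀.2, by simp, fun r hr n i hi => ?_⟩))⟩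
    simpa using key r (hr.trans hle) n i hi
  · rcases h with ⟨n, h1, h2⟩ | ⟨n, h⟩ | ⟨c, hc, h⟩ | ⟨h1, h2, h3⟩
    · exact Or.inl ⟨n, h1.mono hq, h2.mono hq⟩
    · exact Or.inr (Or.inl ⟨n, fun r hr => h r (hr.trans hq)⟩)
    · refine Or.inr (Or.inr (Or.inl ⟨c, lt_of_lt_of_le hc hq.1, fun r hr n i hi => ?_⟩))
      rw [hq.2 _ (by simpa using hc)]
      exact h r (hr.trans hq) n i hi
    · exact Or.inr (Or.inr (Or.inr ⟨fun r hr => h1 r (hr.trans hq),
        fun r hr => h2 r (hr.trans hq), fun r₀ r₁ a b => h3 r₀ r₁ (a.trans hq) (b.trans hq)⟩))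

/-- the pair is split, or can never be split -/
def PairOk (G : Fn) (p q : Cantor × ℕ) : Prop :=
  (∃ n i, Dec G p n i ∧ Dec G q n (!i)) ∨
    ∀ p' q', Le p' p → Le q' q → ∀ n i, ¬ (Dec G p' n i ∧ Dec G q' n (!i))

lemma PairOk.mono {G : Fn} {p q p' q' : Cantor × ℕ} (h : PairOk G p q) (hp : Le p' p)
    (hq : Le q' q) : PairOk G p' q' :=
  h.imp (fun ⟨n, i, h1, h2⟩ => ⟨n, i, h1.mono hp, h2.mono hq⟩)
    fun h a b ha hb => h a b (ha.trans hp) (hb.trans hq)

lemma pairOk_dense (G : Fn) (p q : Cantor × ℕ) :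
    ∃ p' q', Le p' p ∧ Le q' q ∧ PairOk G p' q' := by
  by_cases h : ∀ p' q', Le p' p → Le q' q → ∀ n i, ¬ (Dec G p' n i ∧ Dec G q' n (!i))
  · exact ⟨p, q, Le.refl p, Le.refl q, Or.inr h⟩
  · simp only [not_forall, not_not] at h
    obtain ⟨p', q', h1, h2, n, i, h3⟩ := h
    exact ⟨p', q', h1, h2, Or.inl ⟨n, i, h3⟩⟩

/-- the conjunction of the four dense sets -/
def Task (t : Fn × ℕ × Bool × ℕ) (j : ℕ) (q : Cantor × ℕ) : Prop :=
  j ≤ q.2 ∧ ((∀ x, Mem q x → Stab t.1 t.2.1 t.2.2.1 t.2.2.2 x) ∨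
    ∀ x, Mem q x → ¬ Stab t.1 t.2.1 t.2.2.1 t.2.2.2 x) ∧
  ((∃ i, Dec t.1 q t.2.1 i) ∨ ∀ r, Le r q → ∀ i, ¬ Dec t.1 r t.2.1 i) ∧
  ((∃ n, Dec t.1 q n true ∧ Dec t.1 q n false) ∨ (∃ n, ∀ r, Le r q → ∀ i, ¬ Dec t.1 r n i) ∨
    (∃ c < q.2, ∀ r, Le r q → ∀ n i, Dec t.1 r n i → q.1 (Nat.pair c n) = i) ∨ Split t.1 q)

/-- a scheme of conditions that meets all the dense sets above -/
lemma exists_scheme (p₀ : Cantor × ℕ) :
    ∃ f : ℕ → Cantor → Cantor × ℕ, (∀ s, f 0 s = p₀) ∧ (∀ n m s, n ≤ m → Le (f m s) (f n s)) ∧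
      (∀ n s s', (∀ i < n, s' i = s i) → f n s' = f n s) ∧
      (∀ j s, j ≤ (f (j + 1) s).2) ∧
      (∀ G n i s₀, ∃ m, ∀ s, (∀ x, Mem (f m s) x → Stab G n i s₀ x) ∨
        ∀ x, Mem (f m s) x → ¬ Stab G n i s₀ x) ∧
      (∀ G n, ∃ m, ∀ s, (∃ i, Dec G (f m s) n i) ∨ ∀ r, Le r (f m s) → ∀ i, ¬ Dec G r n i) ∧
      (∀ G, ∃ m, ∀ s, (∃ n, Dec G (f m s) n true ∧ Dec G (f m s) n false) ∨
        (∃ n, ∀ r, Le r (f m s) → ∀ i, ¬ Dec G r n i) ∨
        (∃ c < (f m s).2, ∀ r, Le r (f m s) → ∀ n i, Dec G r n i →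
          (f m s).1 (Nat.pair c n) = i) ∨ Split G (f m s)) ∧
      ∀ G, ∃ j, ∀ m s s', j < m → (∃ i < m, s i ≠ s' i) → PairOk G (f m s) (f m s') := by
  obtain ⟨θ, hθ⟩ := exists_surjective_nat (Fn × ℕ × Bool × ℕ)
  let A : ℕ → Cantor × ℕ → Prop := fun j q => Task (θ j) j q
  have hA : ∀ j, DO (A j) := fun j => (do_len j).and
    ((do_stab (θ j).1 (θ j).2.1 (θ j).2.2.1 (θ j).2.2.2).and
      ((do_dec (θ j).1 (θ j).2.1).and (do_state (θ j).1)))
  have hA' : ∀ j q, A j q → Task (θ j) j q := fun _ _ h => h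
  obtain ⟨f, h0, h1, h2, h3⟩ := fusion Le
    (fun j p q => A j p ∧ A j q ∧ PairOk (θ j).1 p q) Le.refl (fun _ _ _ => Le.trans)
    (fun j p q => by
      obtain ⟨p₁, a1, a2⟩ := (hA j).1 p
      obtain ⟨q₁, b1, b2⟩ := (hA j).1 q
      obtain ⟨p₂, q₂, c1, c2, c3⟩ := pairOk_dense (θ j).1 p₁ q₁
      exact ⟨p₂, q₂, c1.trans a1, c2.trans b1, (hA j).2 _ _ a2 c1, (hA j).2 _ _ b2 c2, c3⟩)
    (fun j p q p' q' h hp hq => ⟨(hA j).2 _ _ h.1 hp, (hA j).2 _ _ h.2.1 hq, h.2.2.mono hp hq⟩)
    p₀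
  have h4 : ∀ j s, A j (f (j + 1) s) := fun j s =>
    (h3 (j + 1) s (fun i => !s i) j (by omega) ⟨0, by omega, by simp⟩).1
  refine ⟨f, h0, h1, h2, fun j s => (hA' _ _ (h4 j s)).1, fun G n i s₀ => ?_, fun G n => ?_,
    fun G => ?_, fun G => ?_⟩
  · obtain ⟨j, hj⟩ := hθ (G, n, i, s₀)
    exact ⟨j + 1, fun s => by simpa only [hj] using (hA' _ _ (h4 j s)).2.1⟩
  · obtain ⟨j, hj⟩ := hθ (G, n, true, 0)
    exact ⟨j + 1, fun s => by simpa only [hj] using (hA' _ _ (h4 j s)).2.2.1⟩
  · obtain ⟨j, hj⟩ := hθ (G, 0, true, 0)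
    exact ⟨j + 1, fun s => by simpa only [hj] using (hA' _ _ (h4 j s)).2.2.2⟩
  · obtain ⟨j, hj⟩ := hθ (G, 0, true, 0)
    exact ⟨j, fun m s s' hm hs => by simpa only [hj] using (h3 m s s' j hm hs).2.2⟩

lemma column_le (x : ℕ → Bool) (c : ℕ) : LeT (fun n => x (Nat.pair c n)) x := by
  have := c_self x
  rw [leT_iff]; fun_prop

theorem exists_avoid {A : Set Cantor}
    (hA : ∀ K : Set Cantor, Perfect K → K.Nonempty →
      ∃ K' ⊆ K, Perfect K' ∧ K'.Nonempty ∧ ∀ a ∈ K', a ∉ A) (z : Cantor) :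
    ∃ x, LeT z x ∧ x ∉ NewIn A := by
  classical
  obtain ⟨f, h0, h1, h2, h3, h4, h5, h6, h7⟩ :=
    exists_scheme (fun i => z (Nat.unpair i).2, 1)
  let xs : Cantor → Cantor := fun s i => (f ((Nat.unpair i).1 + 1 + 1) s).1 i
  have hmem : ∀ n s, Mem (f n s) (xs s) := by
    intro n s i hi
    rcases le_total n ((Nat.unpair i).1 + 1 + 1) with h | h
    · exact (h1 _ _ s h).2 i hi
    · exact ((h1 _ _ s h).2 i (h3 _ s)).symm
  have hdec : ∀ G s a, Lim G (xs s) a → ∀ n m₀, ∃ m, m₀ ≤ m ∧ Dec G (f m s) n (a n) := by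
    intro G s a ha n m₀
    obtain ⟨s₀, hs₀⟩ := ha n
    obtain ⟨m, hm⟩ := h4 G n (a n) s₀
    have hst : Stab G n (a n) s₀ (xs s) := fun t ht ho => by
      have := ho.unique (hs₀ t ht)
      simp at this
    rcases hm s with h | h
    · exact ⟨max m₀ m, le_max_left _ _, Dec.mono ⟨s₀, h⟩ (h1 _ _ s (le_max_right _ _))⟩
    · exact absurd hst (h _ (hmem m s))
  obtain ⟨G, hG⟩ := exists_surjective_nat Fn
  obtain ⟨s, hs⟩ := exists_point (fun e s => ∀ a, Lim (G e) (xs s) a → a ∉ A ∨ LeT a (xs s)) (by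
    intro e Q hQ ⟨t, ht⟩
    obtain ⟨m, hm⟩ := h6 (G e)
    have hQ₁ := perfect_box_inter hQ t m
    have hne : ({y : Cantor | ∀ i < m, y i = t i} ∩ Q).Nonempty := ⟨t, fun _ _ => rfl, ht⟩
    have hf : ∀ s ∈ {y : Cantor | ∀ i < m, y i = t i} ∩ Q, f m s = f m t :=
      fun s hs => h2 m t s hs.1
    rcases hm t with ⟨n, d1, d2⟩ | ⟨n, d⟩ | ⟨c, hc, d⟩ | ⟨d1, d2, d3⟩
    · refine ⟨_, inter_subset_right, hQ₁, hne, fun s hs a ha => ?_⟩
      rw [← hf s hs] at d1 d2
      have e1 := d1.eq (hmem m s) ha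
      have e2 := d2.eq (hmem m s) ha
      simp [e1] at e2
    · refine ⟨_, inter_subset_right, hQ₁, hne, fun s hs a ha => ?_⟩
      obtain ⟨k, hk, hd⟩ := hdec _ s a ha n m
      rw [← hf s hs] at d
      exact absurd hd (d _ (h1 _ _ s hk) _)
    · refine ⟨_, inter_subset_right, hQ₁, hne, fun s hs a ha => Or.inr ?_⟩
      rw [← hf s hs] at d hc
      have : a = fun n => xs s (Nat.pair c n) := by
        funext n
        obtain ⟨k, hk, hd⟩ := hdec _ s a ha n m
        rw [hmem m s _ (by simpa using hc), d _ (h1 _ _ s hk) n _ hd]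
      rw [this]
      exact column_le _ c
    · choose l hl using h5 (G e)
      let φ : Cantor → Cantor := fun s n => decide (Dec (G e) (f (max m (l n)) s) n true)
      have hφc : Continuous φ := continuous_of_local fun n => ⟨max m (l n), fun s s' h => by
        simp only [φ, h2 _ s s' h]⟩
      have hcons : ∀ s ∈ {y : Cantor | ∀ i < m, y i = t i} ∩ Q, ∀ k, m ≤ k → ∀ n i,
          Dec (G e) (f k s) n i → φ s n = i := by
        intro s hs k hk n i hi
        have hle : ∀ k, m ≤ k → Le (f k s) (f m t) := fun k hk => hf s hs ▸ h1 _ _ s hk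
        have a1 := h1 k (max k (max m (l n))) s (le_max_left _ _)
        have a2 := h1 (max m (l n)) (max k (max m (l n))) s (le_max_right _ _)
        have a3 := d1 _ (hle (max k (max m (l n))) (hk.trans (le_max_left _ _))) n
        have a4 : ∃ i, Dec (G e) (f (max m (l n)) s) n i := by
          rcases hl n s with ⟨i, h⟩ | h
          · exact ⟨i, h.mono (h1 _ _ s (le_max_right _ _))⟩
          · obtain ⟨r, b1, i, b2⟩ := d2 _ (hle (max m (l n)) (le_max_left _ _)) n
            exact absurd b2 (h r (b1.trans (h1 _ _ s (le_max_right _ _))) i)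
        cases i
        · simp only [φ, decide_eq_false_iff_not]
          exact fun h => a3 ⟨h.mono a2, hi.mono a1⟩
        · simp only [φ, decide_eq_true_eq]
          obtain ⟨j, hj⟩ := a4
          cases j
          · exact absurd ⟨hi.mono a1, hj.mono a2⟩ a3
          · exact hj
      have hinj : InjOn φ ({y : Cantor | ∀ i < m, y i = t i} ∩ Q) := by
        intro s hs s' hs' heq
        by_contra hne'
        obtain ⟨i, hi⟩ := Function.ne_iff.1 hne'
        obtain ⟨j, hj⟩ := h7 (G e)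
        have hk : m ≤ max m (max i j) + 1 := by omega
        rcases hj (max m (max i j) + 1) s s' (by omega) ⟨i, by omega, hi⟩ with ⟨n, b, b1, b2⟩ | h
        · have e1 := hcons s hs _ hk n _ b1
          have e2 := hcons s' hs' _ hk n _ b2
          rw [heq, e2] at e1
          simp at e1
        · obtain ⟨r₀, r₁, n, b, b1, b2, b3⟩ := d3 _ _ (hf s hs ▸ h1 _ _ s hk)
            (hf s' hs' ▸ h1 _ _ s' hk)
          exact h r₀ r₁ b1 b2 n b b3
      obtain ⟨K', k1, k2, ⟨y, k3⟩, k4⟩ := hA _ (perfect_image hφc hQ₁ hinj) (hne.image φ)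
      refine ⟨_, fun s hs => hs.1.2, perfect_preimage hφc hQ₁.closed hinj k2 k1, ?_,
        fun s hs a ha => Or.inl (k4 a ?_)⟩
      · obtain ⟨s, hs, rfl⟩ := k1 k3
        exact ⟨s, hs, k3⟩
      · have : a = φ s := by
          funext n
          obtain ⟨k, hk, hd⟩ := hdec _ s a ha n m
          exact (hcons s hs.1 k hk n _ hd).symm
        rw [this]
        exact hs.2)
  refine ⟨xs s, ?_, ?_⟩
  · have : z = fun n => xs s (Nat.pair 0 n) := by
      funext n
      rw [hmem 0 s _ (by simp [h0]), h0]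
      simp
    rw [this]
    exact column_le _ 0
  · rintro ⟨a, haA, ⟨g, hg, hl⟩, hn⟩
    obtain ⟨H, hH⟩ := hg.exists_fn
    obtain ⟨e, rfl⟩ := hG H
    refine (hs e a fun n => ?_).elim (fun h => h haA) hn
    obtain ⟨s₀, hs₀⟩ := hl n
    exact ⟨s₀, fun t ht => hs₀ t ht ▸ hH _⟩

/-- under the instance of Turing determinacy for `NewIn A`, an uncountable `A` meets every
nonempty perfect subset of some nonempty perfect set -/
theorem not_null {A : Set Cantor} (hTD : TDat (NewIn A)) (hA : ¬ A.Countable) :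
    ∃ K : Set Cantor, Perfect K ∧ K.Nonempty ∧
      ∀ Q ⊆ K, Perfect Q → Q.Nonempty → (Q ∩ A).Nonempty := by
  by_contra h
  push Not at h
  obtain ⟨z, hz⟩ := cone_of_cofinal (invariant_newIn A) (hTD (invariant_newIn A))
    (cofinal_newIn hA)
  obtain ⟨x, h1, h2⟩ := exists_avoid (A := A) (fun K k1 k2 => by
    obtain ⟨Q, q1, q2, q3, q4⟩ := h K k1 k2
    exact ⟨Q, q1, q2, q3, fun a ha ha' => (Set.eq_empty_iff_forall_notMem.1 q4 a ⟨ha, ha'⟩)⟩) z
  exact h2 (hz x h1)

end Pool.Agent.MP_057cde_lc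

end MrgPart3

-- ======== part 4: formerly Pool.Agent.MP_057cde_lc.Mub
section MrgPart4

/-!
Minimal upper bounds of countable Turing ideals, built with pointed perfect trees.
-/

namespace Pool.Agent.MP_057cde_lc

open Encodable Nat.Partrec Pool.Agent.MP_b427ce_lc

lemma join_le {a b x : ℕ → Bool} (ha : LeT a x) (hb : LeT b x) : LeT (join a b) x := by
  have h1 := leT_iff.1 ha
  have h2 := leT_iff.1 hb
  rw [leT_iff]
  unfold join
  fun_prop

lemma exists_oracle {α β : Type} [Primcodable α] [Primcodable β] [Inhabited β] (f : α → β) :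
    ∃ k : Cantor, ComputableIn {orc k} f := by
  classical
  let k : ℕ → Bool := fun m => decide (∃ a, (Nat.unpair m).1 = encode a ∧
    (Nat.unpair m).2 = encode (f a))
  have hk := c_self k
  have hex : ∀ a : α, ∃ n, k (Nat.pair (encode a) n) = true := fun a =>
    ⟨encode (f a), by simp [k]⟩
  have hf := c_find (O := {orc k}) (p := fun (a : α) n => k (Nat.pair (encode a) n))
    (by fun_prop) hex
  refine ⟨k, cin_of_eq (f := fun a => (decode (α := β) (Nat.find (hex a))).getD default)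
    (by fun_prop) fun a => ?_⟩
  have h4 : ∀ m, k (Nat.pair (encode a) m) = true →
      (decode (α := β) m).getD default = f a := by
    intro m hm
    simp only [k, Nat.unpair_pair, decide_eq_true_eq] at hm
    obtain ⟨b, h1, rfl⟩ := hm
    rw [encode_injective h1]
    simp
  exact h4 _ (Nat.find_spec (hex a))

/-- a perfect tree, given by its splitting nodes -/
def Nrm (T : List Bool → List Bool) : Prop := ∀ σ b, T σ ++ [b] <+: T (σ ++ [b])

/-- `l` is an initial segment of `x` -/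
def Pre (l : List Bool) (x : Cantor) : Prop := pre x l.length = l

/-- `x` is a branch of `T` -/
def On (T : List Bool → List Bool) (x : Cantor) : Prop := ∀ k, ∃ σ, k ≤ σ.length ∧ Pre (T σ) x

lemma Pre.mono {l l' : List Bool} {x : Cantor} (h : Pre l' x) (hl : l <+: l') : Pre l x := by
  unfold Pre at *
  rw [← take_pre x hl.length_le, h]
  exact (List.prefix_iff_eq_take.1 hl).symm

lemma Pre.getD {l : List Bool} {x : Cantor} (h : Pre l x) {i : ℕ} (hi : i < l.length) :
    l.getD i false = x i := by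
  rw [← h]; exact getD_pre x (by simpa using hi) false

lemma Pre.isPrefix {l : List Bool} {x : Cantor} (h : Pre l x) {k : ℕ} (hk : k ≤ l.length) :
    pre x k <+: l := by
  rw [← h]; exact pre_isPrefix x (by simpa using hk)

lemma Pre.last {l : List Bool} {b : Bool} {x : Cantor} (h : Pre (l ++ [b]) x) :
    x l.length = b := by
  rw [← h.getD (by simp)]; simp

lemma Nrm.mono {T : List Bool → List Bool} (h : Nrm T) {σ τ : List Bool} (hs : σ <+: τ) :
    T σ <+: T τ := by
  obtain ⟨ρ, rfl⟩ := hs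
  induction ρ using List.reverseRecOn with
  | nil => simp
  | append_singleton ρ b ih =>
    rw [← List.append_assoc]
    exact ih.trans ((List.prefix_append _ _).trans (h _ b))

lemma Nrm.len {T : List Bool → List Bool} (h : Nrm T) (σ : List Bool) :
    σ.length ≤ (T σ).length := by
  induction σ using List.reverseRecOn with
  | nil => simp
  | append_singleton ρ b ih =>
    have := (h ρ b).length_le
    simp only [List.length_append, List.length_singleton] at this ⊢
    omega

lemma Nrm.comp {T S : List Bool → List Bool} (hT : Nrm T) (hS : Nrm S) : Nrm fun σ => T (S σ) :=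
  fun σ b => (hT _ b).trans (hT.mono (hS σ b))

lemma On.comp {T S : List Bool → List Bool} (hS : Nrm S) {x : Cantor}
    (h : On (fun σ => T (S σ)) x) : On T x := fun k => by
  obtain ⟨σ, h1, h2⟩ := h k
  exact ⟨S σ, h1.trans (hS.len σ), h2⟩

/-- following a branch with a rule that knows the next turn -/
lemma Nrm.take_eq {T : List Bool → List Bool} (hT : Nrm T) {x : Cantor}
    {f : List Bool → Bool} (hf : ∀ σ b, Pre (T (σ ++ [b])) x → f σ = b) (n : ℕ) (τ : List Bool)
    (h1 : n ≤ τ.length) (h2 : Pre (T τ) x) :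
    τ.take n = natIter [] (fun _ σ => σ ++ [f σ]) n := by
  induction n with
  | zero => simp [natIter]
  | succ n ih =>
    have h3 : τ.take (n + 1) = τ.take n ++ [τ[n]] := List.take_succ_eq_append_getElem h1
    have h4 := h2.mono (hT.mono (List.take_prefix (n + 1) τ))
    rw [h3] at h4 ⊢
    rw [← hf _ _ h4, ih (by omega)]
    rfl

lemma On.follow {T : List Bool → List Bool} (hT : Nrm T) {x : Cantor} (h : On T x)
    {f : List Bool → Bool} (hf : ∀ σ b, Pre (T (σ ++ [b])) x → f σ = b) (n : ℕ) :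
    (natIter [] (fun _ σ => σ ++ [f σ]) n).length = n ∧
      Pre (T (natIter [] (fun _ σ => σ ++ [f σ]) n)) x := by
  obtain ⟨τ, h1, h2⟩ := h n
  rw [← hT.take_eq hf n τ h1 h2]
  exact ⟨by simp [h1], h2.mono (hT.mono (List.take_prefix n τ))⟩

/-- a real that computes the tree and a rule for the turns computes the branch -/
lemma On.le {T : List Bool → List Bool} (hT : Nrm T) {x u : Cantor} (h : On T x)
    (hc : ComputableIn {orc u} T) {f : List Bool → Bool} (hcf : ComputableIn {orc u} f)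
    (hf : ∀ σ b, Pre (T (σ ++ [b])) x → f σ = b) : LeT x u := by
  rw [leT_iff]
  refine cin_of_eq (f := fun i =>
    (T (natIter [] (fun _ σ => σ ++ [f σ]) (i + 1))).getD i false) (by fun_prop) fun i => ?_
  obtain ⟨h1, h2⟩ := h.follow hT hf (i + 1)
  exact h2.getD (lt_of_lt_of_le (by omega) (hT.len _))

/-- a condition: a perfect tree computable in `w` whose branches compute `w` -/
structure Cond (J : Set Cantor) where
  T : List Bool → List Bool
  w : Cantor
  nrm : Nrm T
  mem : w ∈ J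
  comp : ComputableIn {orc w} T
  pointed : ∀ x, On T x → LeT w x

/-- passing to a subtree that is computable in `w` -/
def Cond.sub {J : Set Cantor} (p : Cond J) (S : List Bool → List Bool) (hS : Nrm S)
    (hc : ComputableIn {orc p.w} S) : Cond J :=
  ⟨fun σ => p.T (S σ), p.w, p.nrm.comp hS, p.mem, c_comp p.comp hc,
    fun x hx => p.pointed x (hx.comp hS)⟩

lemma nrm_append (ρ : List Bool) : Nrm fun σ => ρ ++ σ := fun σ b => by simp

/-- the tree that copies `v` to the odd positions -/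
def codeTree (v : ℕ → Bool) (σ : List Bool) : List Bool :=
  σ.foldl (fun ρ b => ρ ++ [b] ++ [v (ρ.length / 2)]) []

lemma codeTree_snoc (v : ℕ → Bool) (σ : List Bool) (b : Bool) :
    codeTree v (σ ++ [b]) = codeTree v σ ++ [b] ++ [v ((codeTree v σ).length / 2)] := by
  simp only [codeTree, List.foldl_append, List.foldl_cons, List.foldl_nil]

lemma length_codeTree (v : ℕ → Bool) (σ : List Bool) :
    (codeTree v σ).length = 2 * σ.length := by
  induction σ using List.reverseRecOn with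
  | nil => rfl
  | append_singleton ρ b ih => rw [codeTree_snoc]; simp [ih]; omega

lemma nrm_codeTree (v : ℕ → Bool) : Nrm (codeTree v) := fun σ b => by
  rw [codeTree_snoc]; exact List.prefix_append _ _

lemma getD_codeTree (v : ℕ → Bool) (σ : List Bool) {n : ℕ} (hn : n < σ.length) :
    (codeTree v σ).getD (2 * n + 1) false = v n := by
  have h1 : σ.take (n + 1) = σ.take n ++ [σ[n]] := List.take_succ_eq_append_getElem hn
  have h2 : (codeTree v (σ.take n)).length = 2 * n := by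
    rw [length_codeTree, List.length_take, min_eq_left hn.le]
  rw [getD_of_isPrefix ((nrm_codeTree v).mono (List.take_prefix (n + 1) σ))
    (by rw [length_codeTree, List.length_take, min_eq_left hn]; omega), h1, codeTree_snoc,
    List.getD_append_right _ _ _ _ (by simp [h2])]
  simp [h2]

lemma exists_code {J : Set Cantor} (hj : ∀ a ∈ J, ∀ b ∈ J, join a b ∈ J) (p : Cond J)
    {v : ℕ → Bool} (hv : v ∈ J) :
    ∃ q : Cond J, (∃ S, Nrm S ∧ q.T = fun σ => p.T (S σ)) ∧ LeT v q.w := by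
  have hS := nrm_codeTree v
  have h1 := cin_of_leT p.comp (left_le_join p.w v)
  have h2 := leT_iff.1 (right_le_join p.w v)
  refine ⟨⟨fun σ => p.T (codeTree v σ), join p.w v, p.nrm.comp hS, hj _ p.mem _ hv,
    c_comp h1 (by unfold codeTree; fun_prop), fun (x : ℕ → Bool) hx => ?_⟩, ⟨_, hS, rfl⟩,
    right_le_join _ _⟩
  have h3 := p.pointed x (hx.comp hS)
  have h4 := cin_of_leT p.comp h3
  have h5 := c_self x
  refine join_le h3 ?_
  rw [leT_iff]
  refine cin_of_eq (f := fun n => (natIter [] (fun _ σ => σ ++ [x (p.T σ).length])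
    (2 * n + 2)).getD (2 * n + 1) false) (by fun_prop) fun n => ?_
  obtain ⟨σ, h6, h7⟩ := hx (n + 1)
  rw [← p.nrm.take_eq (fun σ b h => (h.mono (p.nrm σ b)).last) _ _
    (by rw [length_codeTree]; omega) h7, ← getD_codeTree v σ h6]
  refine (getD_of_isPrefix (List.take_prefix _ _) ?_ _).symm
  rw [List.length_take, length_codeTree]
  omega

/-- the splitting subtree -/
lemma exists_split {J : Set Cantor} (p : Cond J) (G : Fn)
    (h : ∀ ρ, ∃ τ₀ τ₁ n v₀ v₁, v₀ ∈ G.1 (p.T (ρ ++ [false] ++ τ₀)) n ∧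
      v₁ ∈ G.1 (p.T (ρ ++ [true] ++ τ₁)) n ∧ v₀ ≠ v₁) :
    ∃ S, Nrm S ∧ ComputableIn {orc p.w} S ∧ ∀ x y, On (fun σ => p.T (S σ)) x →
      (∀ n, Out G x n (y n)) → LeT x (join y p.w) := by
  obtain ⟨c, hc⟩ := G.exists_code
  have hT := p.comp
  let d : ℕ → List Bool × List Bool × ℕ × ℕ := fun m =>
    (decode (α := List Bool × List Bool × ℕ × ℕ) m).getD ([], [], 0, 0)
  have hd : ComputableIn {orc p.w} d := by unfold d; fun_prop
  let e : List Bool → Bool → ℕ → List Bool := fun ρ b m =>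
    ρ ++ [b] ++ cond b (d m).2.1 (d m).1
  have he : ComputableIn {orc p.w} fun t : List Bool × Bool × ℕ => e t.1 t.2.1 t.2.2 := by
    unfold e; fun_prop
  let q : List Bool → Bool → ℕ → Option ℕ := fun ρ b m =>
    Code.evaln (d m).2.2.2 c (Nat.pair (encode (p.T (e ρ b m))) (d m).2.2.1)
  have hq : ComputableIn {orc p.w} fun t : List Bool × Bool × ℕ => q t.1 t.2.1 t.2.2 := by
    unfold q; fun_prop
  let P : List Bool → ℕ → Bool := fun ρ m => (q ρ false m).isSome && ((q ρ true m).isSome &&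
    !eqB ((q ρ false m).getD 0) ((q ρ true m).getD 0))
  have hP : ComputableIn {orc p.w} fun t : List Bool × ℕ => P t.1 t.2 := by
    have h0 := c_comp hq (g := fun t : List Bool × ℕ => (t.1, false, t.2)) (by fun_prop)
    have h1 := c_comp hq (g := fun t : List Bool × ℕ => (t.1, true, t.2)) (by fun_prop)
    exact c_and (c_isSome h0) (c_and (c_isSome h1)
      (c_not (c_eqB (c_optGetD h0 (c_const 0)) (c_optGetD h1 (c_const 0)))))
  have hex : ∀ ρ, ∃ m, P ρ m = true := by
    intro ρ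
    obtain ⟨τ₀, τ₁, n, v₀, v₁, h0, h1, hne⟩ := h ρ
    rw [← hc, Code.evaln_complete] at h0 h1
    obtain ⟨s₀, h0⟩ := h0
    obtain ⟨s₁, h1⟩ := h1
    have h0' := Code.evaln_mono (le_max_left s₀ s₁) h0
    have h1' := Code.evaln_mono (le_max_right s₀ s₁) h1
    refine ⟨encode (τ₀, τ₁, n, max s₀ s₁), ?_⟩
    simp only [P, q, e, d, encodek, Option.getD_some, cond_true, cond_false]
    rw [Option.mem_def.1 h0', Option.mem_def.1 h1']
    simp [hne]
  let F : List Bool → ℕ := fun ρ => Nat.find (hex ρ)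
  have hF : ComputableIn {orc p.w} F := c_find hP hex
  let S : List Bool → List Bool := fun σ => σ.foldl (fun ρ b => e ρ b (F ρ)) []
  have hS : ∀ σ b, S (σ ++ [b]) = e (S σ) b (F (S σ)) := fun σ b => by
    simp only [S, List.foldl_append, List.foldl_cons, List.foldl_nil]
  have hN : Nrm S := fun σ b => by rw [hS]; exact List.prefix_append _ _
  have hSc : ComputableIn {orc p.w} S := by
    refine c_foldl c_id (c_const _) ?_
    exact c_comp he (g := fun t : List Bool × List Bool × Bool => (t.2.1, t.2.2, F t.2.1))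
      (by fun_prop)
  refine ⟨S, hN, hSc, fun x (y : ℕ → Bool) hx hy => ?_⟩
  have hw := right_le_join y p.w
  have hy' := leT_iff.1 (left_le_join y p.w)
  refine hx.le (p.nrm.comp hN) (cin_of_leT (c_comp hT hSc) hw)
    (f := fun σ => !eqB (y (d (F (S σ))).2.2.1).toNat ((q (S σ) false (F (S σ))).getD 0)) ?_ ?_
  · have h0 := cin_of_leT (c_comp hq (g := fun σ => (S σ, false, F (S σ))) (by fun_prop)) hw
    have h1 : ComputableIn {orc (join y p.w)} fun σ => (d (F (S σ))).2.2.1 :=
      cin_of_leT (by fun_prop) hw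
    exact c_not (c_eqB (c_toNat (c_comp hy' h1)) (c_optGetD h0 (c_const 0)))
  · intro σ b hb
    have h1 : P (S σ) (F (S σ)) = true := Nat.find_spec (hex (S σ))
    simp only [P, Bool.and_eq_true, Bool.not_eq_true', eqB_false_iff] at h1
    obtain ⟨h0, h1, hne⟩ := h1
    have h2 : (q (S σ) b (F (S σ))).getD 0 = (y (d (F (S σ))).2.2.1).toNat := by
      have h3 : (q (S σ) b (F (S σ))).isSome = true := by cases b <;> assumption
      obtain ⟨v, hv⟩ := Option.isSome_iff_exists.1 h3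
      have h4 : v ∈ c.eval _ := Code.evaln_sound (Option.mem_def.2 hv)
      rw [hc, ← hS, ← hb] at h4
      obtain ⟨k, hk⟩ := hy (d (F (S σ))).2.2.1
      rw [hv]
      exact Part.mem_unique (G.2.2 _ _ _ _ (pre_isPrefix x (le_max_left _ k)) h4)
        (G.2.2 _ _ _ _ (pre_isPrefix x (le_max_right _ k)) hk)
    cases b
    · simp [← h2]
    · simp [← h2, hne.symm]

lemma exists_decide {J : Set Cantor} (p : Cond J) (G : Fn) :
    ∃ S, Nrm S ∧ ComputableIn {orc p.w} S ∧ ∀ x y, On (fun σ => p.T (S σ)) x →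
      (∀ n, Out G x n (y n)) → LeT y p.w ∨ LeT x (join y p.w) := by
  have hT := p.comp
  have conv : ∀ ρ x n b, On (fun σ => p.T (ρ ++ σ)) x → Out G x n b →
      ∃ τ, b.toNat ∈ G.1 (p.T (ρ ++ τ)) n := by
    rintro ρ x n b hx ⟨k, hk⟩
    obtain ⟨τ, h1, h2⟩ := hx k
    refine ⟨τ, G.2.2 _ _ _ _ (h2.isPrefix ?_) hk⟩
    exact h1.trans ((p.nrm.comp (nrm_append ρ)).len τ)
  by_cases h1 : ∃ ρ n, ∀ τ v, v ∉ G.1 (p.T (ρ ++ τ)) n
  · obtain ⟨ρ, n, h⟩ := h1
    refine ⟨_, nrm_append ρ, by fun_prop, fun x y hx hy => ?_⟩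
    obtain ⟨τ, hτ⟩ := conv ρ x n _ hx (hy n)
    exact absurd hτ (h τ _)
  by_cases h2 : ∃ ρ, ∀ τ τ' n v v', v ∈ G.1 (p.T (ρ ++ τ)) n → v' ∈ G.1 (p.T (ρ ++ τ')) n → v = v'
  · obtain ⟨ρ, h⟩ := h2
    refine ⟨_, nrm_append ρ, by fun_prop, fun x y hx hy => Or.inl ?_⟩
    refine leT_of_search G (E := fun m => p.T (ρ ++ (decode (α := List Bool) m).getD []))
      (by fun_prop) (fun n => ?_) fun n k v hv => ?_
    · obtain ⟨τ, hτ⟩ := conv ρ x n _ hx (hy n)
      exact ⟨encode τ, by simpa using hτ⟩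
    · obtain ⟨τ, hτ⟩ := conv ρ x n _ hx (hy n)
      exact h _ _ _ _ _ hv hτ
  push Not at h1 h2
  obtain ⟨S, a1, a2, a3⟩ := exists_split p G fun ρ => by
    obtain ⟨τ, τ', n, v, v', b1, b2, b3⟩ := h2 (ρ ++ [false])
    obtain ⟨τ₁, v₁, b4⟩ := h1 (ρ ++ [true]) n
    by_cases h : v = v₁
    · exact ⟨τ', τ₁, n, v', v₁, b2, b4, fun h' => b3 (h.trans h'.symm)⟩
    · exact ⟨τ, τ₁, n, v, v₁, b1, b4, h⟩
  exact ⟨S, a1, a2, fun x y hx hy => Or.inr (a3 x y hx hy)⟩

/-- A countable ideal has upper bounds `x` such that every real below `x` is in the ideal or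
joins with a member of the ideal to `x`; modulo one parameter they compute any given real. -/
theorem exists_mub {J : Set Cantor} (hc : J.Countable) (hne : J.Nonempty)
    (hd : ∀ a ∈ J, ∀ b, LeT b a → b ∈ J) (hj : ∀ a ∈ J, ∀ b ∈ J, join a b ∈ J) :
    ∃ k, ∀ r, ∃ x, (∀ w ∈ J, LeT w x) ∧ (∀ y, LeT y x → y ∈ J ∨ ∃ w ∈ J, LeT x (join y w)) ∧
      LeT r (join x k) := by
  obtain ⟨v, hv⟩ := hc.exists_eq_range hne
  obtain ⟨G, hG⟩ := exists_surjective_nat Fn
  have step : ∀ (n : ℕ) (p : Cond J), ∃ q : Cond J, (∃ S, Nrm S ∧ q.T = fun σ => p.T (S σ)) ∧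
      ∀ x, On q.T x → LeT (v n) x ∧ ∀ y, (∀ m, Out (G n) x m (y m)) →
        y ∈ J ∨ ∃ w ∈ J, LeT x (join y w) := by
    intro n p
    obtain ⟨q, ⟨S, a1, a2⟩, a3⟩ := exists_code hj p (v := v n) (by rw [hv]; exact ⟨n, rfl⟩)
    obtain ⟨S', b1, b2, b3⟩ := exists_decide q (G n)
    refine ⟨q.sub S' b1 b2, ⟨fun σ => S (S' σ), a1.comp b1, by simp only [Cond.sub, a2]⟩,
      fun x hx => ⟨a3.trans (q.pointed x (On.comp b1 hx)), fun y hy => ?_⟩⟩
    exact (b3 x y hx hy).imp (hd _ q.mem _) fun h => ⟨_, q.mem, h⟩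
  choose f hf1 hf2 using step
  have h0 : (fun _ => false) ∈ J := by
    obtain ⟨a, ha⟩ := hne
    exact hd a ha _ (leT_iff.2 (c_const false))
  let p₀ : Cond J := ⟨fun σ => σ, fun _ => false, fun _ _ => List.prefix_refl _, h0, c_id,
    fun x _ => leT_iff.2 (c_const false)⟩
  let C : List Bool → ℕ × Cond J := fun σ => σ.foldl (fun t b =>
    (t.1 + 1, (f t.1 t.2).sub (fun τ => [b] ++ τ) (nrm_append _) (by fun_prop))) (0, p₀)
  have hC : ∀ σ b, C (σ ++ [b]) = ((C σ).1 + 1,
      (f (C σ).1 (C σ).2).sub (fun τ => [b] ++ τ) (nrm_append _) (by fun_prop)) := fun σ b => by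
    simp only [C, List.foldl_append, List.foldl_cons, List.foldl_nil]
  have hC1 : ∀ (r : Cantor) n, (C (pre r n)).1 = n := by
    intro r n
    induction n with
    | zero => rfl
    | succ n ih => rw [pre_succ, hC, ih]
  obtain ⟨k, hk⟩ := exists_oracle fun σ => ((f (C σ).1 (C σ).2).T []).length
  refine ⟨k, fun r => ?_⟩
  let Q : ℕ → Cond J := fun n => f n (C (pre r n)).2
  have hQ : ∀ n, ∃ S, Nrm S ∧ (Q (n + 1)).T = fun σ => (Q n).T ([r n] ++ S σ) := by
    intro n
    obtain ⟨S, a1, a2⟩ := hf1 (n + 1) (C (pre r (n + 1))).2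
    refine ⟨S, a1, a2.trans ?_⟩
    rw [pre_succ, hC, hC1]
    rfl
  have hsub : ∀ n j σ, ∃ ρ : List Bool, σ.length + j ≤ ρ.length ∧ (Q (n + j)).T σ = (Q n).T ρ := by
    intro n j
    induction j with
    | zero => exact fun σ => ⟨σ, le_rfl, rfl⟩
    | succ j ih =>
      intro σ
      obtain ⟨S, a1, a2⟩ := hQ (n + j)
      obtain ⟨ρ, b1, b2⟩ := ih ([r (n + j)] ++ S σ)
      have := a1.len σ
      refine ⟨ρ, ?_, by rw [← add_assoc, a2, ← b2]⟩
      simp only [List.length_append, List.length_singleton] at b1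
      omega
  have hstem : ∀ n m, n ≤ m → (Q n).T [] <+: (Q m).T [] := by
    intro n m h
    obtain ⟨j, rfl⟩ := Nat.exists_eq_add_of_le h
    obtain ⟨ρ, -, b2⟩ := hsub n j []
    rw [b2]
    exact (Q n).nrm.mono List.nil_prefix
  have hlen : ∀ n, n ≤ ((Q n).T []).length := by
    intro n
    obtain ⟨ρ, b1, b2⟩ := hsub 0 n []
    rw [zero_add] at b2
    rw [b2]
    exact le_trans (by simpa using b1) ((Q 0).nrm.len ρ)
  let x : ℕ → Bool := fun i => ((Q (i + 1)).T []).getD i false
  have hx : ∀ n, Pre ((Q n).T []) x := by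
    intro n
    refine (eq_pre_of (d := false) rfl fun i hi => ?_).symm
    rcases le_total n (i + 1) with h | h
    · exact (getD_of_isPrefix (hstem _ _ h) hi false).symm
    · exact getD_of_isPrefix (hstem _ _ h) (hlen (i + 1)) false
  have hon : ∀ n, On (Q n).T x := by
    intro n j
    obtain ⟨ρ, b1, b2⟩ := hsub n j []
    exact ⟨ρ, by simpa using b1, b2 ▸ hx (n + j)⟩
  refine ⟨x, fun w hw => ?_, fun y hy => ?_, ?_⟩
  · rw [hv] at hw
    obtain ⟨n, rfl⟩ := hw
    exact (hf2 n _ x (hon n)).1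
  · obtain ⟨H, hH⟩ := hy.exists_fn
    obtain ⟨n, rfl⟩ := hG H
    exact (hf2 n _ x (hon n)).2 y hH
  · have a1 := cin_of_leT hk (right_le_join x k)
    have a2 := leT_iff.1 (left_le_join x k)
    have a3 : ∀ n, x ((Q n).T []).length = r n := by
      intro n
      obtain ⟨S, b1, b2⟩ := hQ n
      have b3 := hx (n + 1)
      rw [b2] at b3
      exact (b3.mono (((Q n).nrm [] (r n)).trans ((Q n).nrm.mono (List.prefix_append _ _)))).last
    have a4 : ∀ n, natIter [] (fun _ σ => σ ++ [x ((f (C σ).1 (C σ).2).T []).length]) n =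
        pre r n := by
      intro n
      induction n with
      | zero => rfl
      | succ n ih => rw [natIter, ih, hC1, pre_succ, ← a3]
    rw [leT_iff]
    refine cin_of_eq (f := fun n => (natIter [] (fun _ σ =>
      σ ++ [x ((f (C σ).1 (C σ).2).T []).length]) (n + 1)).getD n false) ?_ fun n => ?_
    · refine c_getD (c_natIter (by fun_prop) (c_const _) ?_) c_id (c_const _)
      exact c_append (by fun_prop) (c_cons (c_comp a2
        (c_comp a1 (g := fun p : ℕ × ℕ × List Bool => p.2.2) (by fun_prop))) (c_const _))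
    · rw [a4]; exact getD_pre r (by omega) false

end Pool.Agent.MP_057cde_lc

end MrgPart4

-- ======== part 5: formerly Pool.Agent.MP_057cde_lc.Gamma
section MrgPart5

/-!
Definability inside a point class.
-/

namespace Pool.Agent.MP_057cde_lc

open Set Pool.Agent.MP_b427ce_lc

lemma oplus_eq_join (a b : Cantor) : oplus a b = join a b := by
  funext n
  by_cases h : n % 2 = 0 <;> simp [oplus, join, eqB, h]

@[fun_prop] lemma continuous_join {X : Type} [TopologicalSpace X] {f g : X → Cantor}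
    (hf : Continuous f) (hg : Continuous g) : Continuous fun x => join (f x) (g x) := by
  refine continuous_pi fun n => ?_
  unfold join
  cases eqB (n % 2) 0
  · exact (continuous_apply _).comp hg
  · exact (continuous_apply _).comp hf

lemma leT_iff_fn {a x : ℕ → Bool} : LeT a x ↔ ∃ G : Fn, ∀ n, Out G x n (a n) := by
  refine ⟨LeT.exists_fn, fun ⟨G, hG⟩ => ?_⟩
  have hx := c_self x
  refine leT_of_search G (E := pre x) (c_pre (f := fun _ => x) (by fun_prop) c_id) hG
    fun n k v hv => ?_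
  obtain ⟨j, hj⟩ := hG n
  exact Part.mem_unique (G.2.2 _ _ _ _ (pre_isPrefix x (le_max_left k j)) hv)
    (G.2.2 _ _ _ _ (pre_isPrefix x (le_max_right k j)) hj)

lemma isOpen_out {X : Type} [TopologicalSpace X] (G : Fn) (n : ℕ) {f : X → Cantor} {g : X → Bool}
    (hf : Continuous f) (hg : Continuous g) : IsOpen {z | Out G (f z) n (g z)} := by
  rw [isOpen_iff_mem_nhds]
  intro z hz
  obtain ⟨k, hk⟩ := Out.near hz
  filter_upwards [hf.continuousAt (box_mem_nhds (f z) k),
    hg.continuousAt ((isOpen_discrete {g z}).mem_nhds rfl)] with y h1 h2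
  have h3 : g y = g z := h2
  show Out G (f y) n (g y)
  rw [h3]
  exact hk _ h1

/-- a real as a sequence of reals -/
def dec (z : Cantor) : ℕ → Cantor := fun i n => z (Nat.pair i n)

/-- a sequence of reals as a real -/
def enc (v : ℕ → Cantor) : Cantor := fun m => v (Nat.unpair m).1 (Nat.unpair m).2

/-- the tail of a sequence -/
def tl (v : ℕ → Cantor) : ℕ → Cantor := fun i => v (i + 1)

lemma dec_enc (v : ℕ → Cantor) : dec (enc v) = v := by funext i n; simp [dec, enc]

lemma enc_dec (z : Cantor) : enc (dec z) = z := by funext m; simp [dec, enc]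

@[fun_prop] lemma continuous_dec : Continuous dec := by unfold dec; fun_prop

@[fun_prop] lemma continuous_enc : Continuous enc := by unfold enc; fun_prop

@[fun_prop] lemma continuous_tl : Continuous tl := by unfold tl; fun_prop

/-- the property `P` of a sequence of reals is in `Γ` -/
def D (Γ : Set (Set Cantor)) (P : (ℕ → Cantor) → Prop) : Prop := {z | P (dec z)} ∈ Γ

variable {Γ : Set (Set Cantor)} (hΓ : PointClass Γ)
include hΓ

lemma D.set {P : Cantor → Prop} (h : D Γ fun v => P (v 0)) : {x | P x} ∈ Γ := by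
  have := hΓ.preimage _ h (fun x => enc fun _ => x) (by fun_prop)
  simpa only [preimage_ofPred_eq, dec_enc] using this

lemma D.not {P : (ℕ → Cantor) → Prop} (h : D Γ P) : D Γ fun v => ¬ P v := hΓ.compl _ h

lemma D.and {P Q : (ℕ → Cantor) → Prop} (h : D Γ P) (h' : D Γ Q) : D Γ fun v => P v ∧ Q v :=
  hΓ.inter _ h _ h'

lemma D.or {P Q : (ℕ → Cantor) → Prop} (h : D Γ P) (h' : D Γ Q) : D Γ fun v => P v ∨ Q v := by
  simpa only [not_and_or, not_not] using ((h.not hΓ).and hΓ (h'.not hΓ)).not hΓ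

lemma D.imp {P Q : (ℕ → Cantor) → Prop} (h : D Γ P) (h' : D Γ Q) : D Γ fun v => P v → Q v := by
  simpa only [imp_iff_not_or] using (h.not hΓ).or hΓ h'

lemma D.ex {Q : (ℕ → Cantor) → Cantor → Prop} (h : D Γ fun v => Q (tl v) (v 0)) :
    D Γ fun v => ∃ y, Q v y := by
  have := hΓ.image _ h (fun z => enc (tl (dec z))) (by fun_prop)
  unfold D
  convert this using 1
  ext z
  constructor
  · rintro ⟨y, hy⟩
    refine ⟨enc fun i => Nat.casesOn i y (dec z), ?_, ?_⟩
    · simp only [mem_ofPred_eq, dec_enc]; exact hy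
    · simp only [dec_enc]; exact enc_dec z
  · rintro ⟨w, hw, rfl⟩
    refine ⟨dec w 0, ?_⟩
    rw [dec_enc]
    exact hw

lemma D.all {Q : (ℕ → Cantor) → Cantor → Prop} (h : D Γ fun v => Q (tl v) (v 0)) :
    D Γ fun v => ∀ y, Q v y := by
  simpa only [not_exists, not_not] using
    (D.ex hΓ (Q := fun v y => ¬ Q v y) (h.not hΓ)).not hΓ

lemma D.mem {R : Set Cantor} (hR : R ∈ Γ) {f : (ℕ → Cantor) → Cantor} (hf : Continuous f) :
    D Γ fun v => f v ∈ R := hΓ.preimage _ hR (fun z => f (dec z)) (by fun_prop)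

lemma D.out (G : Fn) {f g : (ℕ → Cantor) → Cantor} (hf : Continuous f) (hg : Continuous g) :
    D Γ fun v => ∀ n, Out G (f v) n (g v n) := by
  refine hΓ.borel _ ?_
  rw [ofPred_forall]
  exact MeasurableSet.iInter fun n =>
    (isOpen_out G n (f := fun z => f (dec z)) (by fun_prop) (by fun_prop)).measurableSet

lemma D.leT {f g : (ℕ → Cantor) → Cantor} (hf : Continuous f) (hg : Continuous g) :
    D Γ fun v => LeT (f v) (g v) := by
  refine hΓ.borel _ ?_
  simp only [leT_iff_fn]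
  rw [ofPred_exists]
  refine MeasurableSet.iUnion fun G => ?_
  rw [ofPred_forall]
  exact MeasurableSet.iInter fun n =>
    (isOpen_out G n (f := fun z => g (dec z)) (by fun_prop) (by fun_prop)).measurableSet

lemma D.lim {f g : (ℕ → Cantor) → Cantor} (hf : Continuous f) (hg : Continuous g) :
    D Γ fun v => ∀ n, ∃ s₀, ∀ s ≥ s₀, g v (Nat.pair n s) = f v n := by
  refine hΓ.borel _ ?_
  simp only [ofPred_forall, ofPred_exists]
  refine MeasurableSet.iInter fun n => MeasurableSet.iUnion fun s₀ =>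
    MeasurableSet.iInter fun s => MeasurableSet.iInter fun _ => ?_
  exact (isClosed_eq (by fun_prop) (by fun_prop)).measurableSet

lemma newIn_mem {A : Set Cantor} (hA : A ∈ Γ) : NewIn A ∈ Γ := by
  refine D.set hΓ (D.ex hΓ (D.and hΓ (D.mem hΓ hA (by fun_prop)) (D.and hΓ ?_
    (D.not hΓ (D.leT hΓ (by fun_prop) (by fun_prop))))))
  exact D.ex hΓ (D.and hΓ (D.leT hΓ (by fun_prop) (by fun_prop))
    (D.lim hΓ (by fun_prop) (by fun_prop)))

end Pool.Agent.MP_057cde_lc

end MrgPart5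

-- ======== part 6: formerly Pool.Agent.MP_057cde_lc.Unif
section MrgPart6

/-!
Inversion on a cone, and continuous uniformization on a set that meets every perfect subset of
some perfect set.
-/

namespace Pool.Agent.MP_057cde_lc

open Set Filter Topology Encodable Pool.Agent.MP_b427ce_lc

lemma not_countable_univ' : ¬ (univ : Set Cantor).Countable := by
  intro h
  obtain ⟨f, hf⟩ := h.exists_eq_range univ_nonempty
  obtain ⟨n, hn⟩ : (fun n => !f n n) ∈ range f := hf ▸ mem_univ _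
  simpa using congrFun hn n

lemma perfect_range {f : Cantor → Cantor} (hf : Continuous f) (hi : Function.Injective f) :
    Perfect (range f) := image_univ ▸ perfect_image hf perfect_univ hi.injOn

lemma perfect_inj {K : Set Cantor} (hK : Perfect K) (hne : K.Nonempty) :
    ∃ f : Cantor → Cantor, range f ⊆ K ∧ Continuous f ∧ Function.Injective f := by
  let := TopologicalSpace.upgradeIsCompletelyMetrizable Cantor
  exact hK.exists_nat_bool_injection hne

lemma perfect_not_countable {K : Set Cantor} (hK : Perfect K) (hne : K.Nonempty) :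
    ¬ K.Countable := by
  obtain ⟨f, h1, -, h2⟩ := perfect_inj hK hne
  intro h
  have h3 : (f ⁻¹' K).Countable := h.preimage_of_injOn h2.injOn
  refine not_countable_univ' (h3.mono fun x _ => ?_)
  exact h1 ⟨x, rfl⟩

lemma perfect_of_borel {s : Set Cantor} (hs : MeasurableSet s) (hc : ¬ s.Countable) :
    ∃ K ⊆ s, Perfect K ∧ K.Nonempty := by
  have : PolishSpace Cantor := {}
  obtain ⟨t', h1, h2, h3, -⟩ := hs.isClopenable
  obtain ⟨f, a1, a2, a3⟩ := @IsClosed.exists_nat_bool_injection_of_not_countable _ t' h2 s h3 hc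
  exact ⟨range f, a1, perfect_range (continuous_le_rng h1 a2) a3, range_nonempty f⟩

lemma exists_not_le (a : Cantor) : ∃ b, ¬ LeT b a := by
  by_contra h
  push Not at h
  exact not_countable_univ' ((countable_below a).mono fun b _ => h b)

/-- the inverse of a continuous injection is computable in a parameter -/
lemma exists_inverse {f : Cantor → Cantor} (hf : Continuous f) (hi : Function.Injective f) :
    ∃ k, ∀ t, LeT t (join (f t) k) := by
  classical
  let F : ℕ × List Bool → Option Bool := fun p =>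
    if ∀ t, Pre p.2 (f t) → t p.1 = true then some true
    else if ∀ t, Pre p.2 (f t) → t p.1 = false then some false else none
  obtain ⟨k, hk⟩ := exists_oracle F
  refine ⟨k, fun t => ?_⟩
  have hpre : ∀ m, Pre (pre (f t) m) (f t) := fun m => by simp [Pre]
  have hval : ∀ n m b, F (n, pre (f t) m) = some b → t n = b := by
    intro n m b h
    simp only [F] at h
    split_ifs at h with h1 h2
    · rw [h1 t (hpre m)]; exact Option.some.inj h
    · rw [h2 t (hpre m)]; exact Option.some.inj h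
  have hex : ∀ n, ∃ m, (F (n, pre (f t) m)).isSome = true := by
    intro n
    have hc0 : IsClosed {s : Cantor | s n ≠ t n} :=
      (isClosed_discrete {b : Bool | b ≠ t n}).preimage
        (continuous_apply (A := fun _ : ℕ => Bool) n)
    have hc : IsClosed (f '' {s | s n ≠ t n}) := (hc0.isCompact.image hf).isClosed
    have hn : f t ∉ f '' {s | s n ≠ t n} := by
      rintro ⟨s, h1, h2⟩
      exact h1 (by rw [hi h2])
    obtain ⟨m, hm⟩ := exists_box (hc.isOpen_compl.mem_nhds hn)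
    have key : ∀ s, Pre (pre (f t) m) (f s) → s n = t n := by
      intro s hs
      by_contra hne
      refine hm (f s) (fun i hi => ?_) ⟨s, hne, rfl⟩
      rw [← hs.getD (by simpa using hi), getD_pre _ hi]
    refine ⟨m, ?_⟩
    simp only [F]
    split_ifs with h1 h2
    · rfl
    · rfl
    · cases h : t n
      · exact absurd (fun s hs => (key s hs).trans h) h2
      · exact absurd (fun s hs => (key s hs).trans h) h1
  have a1 := cin_of_leT hk (right_le_join (f t) k)
  have a2 := leT_iff.1 (left_le_join (f t) k)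
  have a3 : ComputableIn {orc (join (f t) k)} fun p : ℕ × ℕ => F (p.1, pre (f t) p.2) :=
    c_comp a1 (c_pair (c_fst c_id) (c_pre (f := fun _ => f t) (c_comp a2 (c_snd c_id))
      (c_snd c_id)))
  have a4 := c_find (p := fun n m => (F (n, pre (f t) m)).isSome) (c_isSome a3) hex
  rw [leT_iff]
  refine cin_of_eq (c_optGetD (c_comp a3 (c_pair c_id a4)) (c_const false)) fun n => ?_
  obtain ⟨b, hb⟩ := Option.isSome_iff_exists.1 (Nat.find_spec (hex n))
  simp only [hb, Option.getD_some]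
  exact (hval _ _ _ hb).symm

lemma join_left_inj (r : Cantor) : Function.Injective (join r) := by
  intro s t h
  funext n
  have h1 : (2 * n + 1) % 2 = 1 := by omega
  have h2 : (2 * n + 1) / 2 = n := by omega
  simpa [join, eqB, h1, h2] using congrFun h (2 * n + 1)

/-- modulo a parameter the members of `A` compute every real -/
lemma cofinal_mod {A K : Set Cantor} (hK : Perfect K) (hne : K.Nonempty)
    (h : ∀ Q ⊆ K, Perfect Q → Q.Nonempty → (Q ∩ A).Nonempty) :
    ∃ k, ∀ r, ∃ a ∈ A, LeT r (join a k) := by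
  obtain ⟨f, h1, h2, h3⟩ := perfect_inj hK hne
  obtain ⟨k, hk⟩ := exists_inverse h2 h3
  refine ⟨k, fun r => ?_⟩
  obtain ⟨a, ⟨s, rfl⟩, ha⟩ := h (range fun s => f (join r s)) (by
    rintro _ ⟨s, rfl⟩; exact h1 ⟨_, rfl⟩)
    (perfect_range (by fun_prop) (h3.comp (join_left_inj r))) (range_nonempty _)
  exact ⟨_, ha, (left_le_join r s).trans (hk _)⟩

/-- countable ideals closed under a function -/
lemma exists_ideal (F : Cantor → Cantor) (w : Cantor) : ∃ J : Set Cantor, J.Countable ∧ w ∈ J ∧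
    (∀ a ∈ J, ∀ b, LeT b a → b ∈ J) ∧ (∀ a ∈ J, ∀ b ∈ J, join a b ∈ J) ∧ ∀ a ∈ J, F a ∈ J := by
  have up : ∀ c : Cantor, ∃ d, LeT c d ∧ ∀ a, LeT a c → LeT (F a) d := by
    intro c
    obtain ⟨v, hv⟩ := (countable_below c).exists_eq_range ⟨c, LeT.refl c⟩
    refine ⟨join c (enc fun i => F (v i)), left_le_join _ _, fun a ha => ?_⟩
    obtain ⟨i, rfl⟩ : a ∈ range v := hv ▸ ha
    refine LeT.trans ?_ (right_le_join _ _)
    rw [leT_iff]
    refine cin_of_eq (f := fun n => enc (fun i => F (v i)) (Nat.pair i n))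
      (leT_comp (LeT.refl _) (by fun_prop)) fun n => by simp [enc]
  choose u hu1 hu2 using up
  have hm : ∀ n m, n ≤ m → LeT (u^[n] w) (u^[m] w) := by
    intro n m h
    induction m, h using Nat.le_induction with
    | base => exact LeT.refl _
    | succ m _ ih => rw [Function.iterate_succ_apply']; exact ih.trans (hu1 _)
  refine ⟨⋃ n, {a | LeT a (u^[n] w)}, countable_iUnion fun n => countable_below _,
    mem_iUnion.2 ⟨0, LeT.refl w⟩, ?_, ?_, ?_⟩ <;> simp only [mem_iUnion, mem_ofPred_eq]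
  · exact fun a ⟨n, hn⟩ b hb => ⟨n, hb.trans hn⟩
  · exact fun a ⟨n, hn⟩ b ⟨m, hm'⟩ => ⟨max n m, join_le (hn.trans (hm _ _ (le_max_left _ _)))
      (hm'.trans (hm _ _ (le_max_right _ _)))⟩
  · exact fun a ⟨n, hn⟩ => ⟨n + 1, by rw [Function.iterate_succ_apply']; exact hu2 _ _ hn⟩

/-- `r` is computable from `k` and a point of the domain of `R` that has a witness below `x` -/
def Old (R : Set Cantor) (k x r : Cantor) : Prop :=
  ∃ y u, join y u ∈ R ∧ LeT y x ∧ LeT u x ∧ LeT r (join y k)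

/-- the old reals form a maximal proper ideal below `x` without a largest element -/
def Nice (R : Set Cantor) (k x : Cantor) : Prop :=
  (∀ r s, Old R k x r → Old R k x s → Old R k x (join r s)) ∧ ¬ Old R k x x ∧
  (∀ y, LeT y x → Old R k x y ∨ ∃ w, Old R k x w ∧ LeT x (join y w)) ∧
  ∀ a, Old R k x a → ∃ b, Old R k x b ∧ ¬ LeT b a

lemma Old.mono {R : Set Cantor} {k x x' r r' : Cantor} (h : Old R k x r) (hx : LeT x x')
    (hr : LeT r' r) : Old R k x' r' := by
  obtain ⟨y, u, h1, h2, h3, h4⟩ := h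
  exact ⟨y, u, h1, h2.trans hx, h3.trans hx, hr.trans h4⟩

lemma invariant_nice (R : Set Cantor) (k : Cantor) : Invariant {x | Nice R k x} := by
  rintro x ⟨h1, h2, h3, h4⟩ y hxy hyx
  have e : ∀ r, Old R k y r ↔ Old R k x r :=
    fun r => ⟨fun h => h.mono hyx (LeT.refl _), fun h => h.mono hxy (LeT.refl _)⟩
  simp only [mem_ofPred_eq, Nice, e]
  exact ⟨h1, fun h => h2 (h.mono (LeT.refl _) hxy), fun t ht => (h3 t (ht.trans hyx)).imp_right
    fun ⟨w, a, b⟩ => ⟨w, a, hyx.trans b⟩, h4⟩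

lemma not_nice {R : Set Cantor} {k : Cantor} (hk : ∀ r, ∃ y u, join y u ∈ R ∧ LeT r (join y k))
    (z : Cantor) : ∃ x, LeT z x ∧ ¬ Nice R k x := by
  by_contra h
  push Not at h
  let a := join z k
  obtain ⟨κ, hκ⟩ := exists_mub (J := {b | LeT b a}) (countable_below a) ⟨a, LeT.refl a⟩
    (fun _ h _ h' => h'.trans h) fun _ h _ h' => join_le h h'
  obtain ⟨y, u, h1, h2⟩ := hk (join κ a)
  obtain ⟨m, h3, h4, h5⟩ := hκ (join y u)
  have ham := h3 a (LeT.refl a)
  have hzm := (left_le_join z k).trans ham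
  obtain ⟨b1, b2, -, -⟩ := h (join m κ) (hzm.trans (left_le_join _ _))
  obtain ⟨c1, c2, c3, c4⟩ := h m hzm
  have d1 : Old R k (join m κ) (join κ a) :=
    ⟨y, u, h1, (left_le_join _ _).trans h5, (right_le_join _ _).trans h5, h2⟩
  have d2 : ¬ Old R k (join m κ) m := fun d => b2 (b1 _ _ d (d1.mono (LeT.refl _)
    (left_le_join _ _)))
  have d3 : Old R k m a := by
    refine (c3 a ham).resolve_right fun ⟨w, e1, e2⟩ => d2 ?_
    exact (b1 _ _ (d1.mono (LeT.refl _) (right_le_join _ _))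
      (e1.mono (left_le_join _ _) (LeT.refl _))).mono (LeT.refl _) e2
  obtain ⟨b, e1, e2⟩ := c4 a d3
  have e3 : LeT b m := by
    obtain ⟨y', u', -, f1, -, f2⟩ := e1
    exact f2.trans (join_le f1 ((right_le_join z k).trans ham))
  obtain ⟨w, e4, e5⟩ := (h4 b e3).resolve_left e2
  exact c2 ((c1 _ _ e1 d3).mono (LeT.refl _) (e5.trans (join_le (left_le_join _ _)
    (LeT.trans e4 (right_le_join _ _)))))

lemma cofinal_nice {R : Set Cantor} {k : Cantor}
    (hk : ∀ r, ∃ y u, join y u ∈ R ∧ LeT r (join y k))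
    (h : ∀ w, ∃ c, ∀ x y u, join y u ∈ R → LeT y x → LeT u x → LeT x (join y w) → ¬ LeT c x)
    (z : Cantor) : ∃ x, Nice R k x ∧ LeT z x := by
  choose c hc using h
  choose Y U hY using hk
  choose N hN using exists_not_le
  obtain ⟨J, j1, j2, j3, j4, j5⟩ :=
    exists_ideal (fun w => join (join (c w) (N w)) (join (Y w) (U w))) (join z k)
  obtain ⟨κ, hκ⟩ := exists_mub j1 ⟨_, j2⟩ j3 j4
  obtain ⟨x, h1, h2, -⟩ := hκ z
  have hkJ : k ∈ J := j3 _ j2 _ (right_le_join _ _)
  have e : ∀ r, Old R k x r ↔ r ∈ J := by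
    intro r
    constructor
    · rintro ⟨y, u, a1, a2, a3, a4⟩
      refine j3 _ (j4 _ ((h2 y a2).resolve_right fun ⟨w, b1, b2⟩ => ?_) _ hkJ) _ a4
      exact hc w x y u a1 a2 a3 b2
        (((left_le_join _ _).trans (left_le_join _ _)).trans (h1 _ (j5 w b1)))
    · intro hr
      have := (right_le_join _ _).trans (h1 _ (j5 r hr))
      exact ⟨Y r, U r, (hY r).1, (left_le_join _ _).trans this, (right_le_join _ _).trans this,
        (hY r).2⟩
  have hNJ : ∀ a ∈ J, N a ∈ J :=
    fun a ha => j3 _ (j5 a ha) _ ((right_le_join _ _).trans (left_le_join _ _))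
  refine ⟨x, ?_, (left_le_join _ _).trans (h1 _ j2)⟩
  simp only [Nice, e]
  exact ⟨fun r s a b => j4 r a s b, fun hx => hN x (h1 _ (hNJ x hx)), h2,
    fun a ha => ⟨N a, hNJ a ha, hN a⟩⟩

variable {Γ : Set (Set Cantor)} (hΓ : PointClass Γ)
include hΓ

lemma D.old {R : Set Cantor} (hR : R ∈ Γ) (k : Cantor) {f g : (ℕ → Cantor) → Cantor}
    (hf : Continuous f) (hg : Continuous g) : D Γ fun v => Old R k (f v) (g v) :=
  D.ex hΓ (D.ex hΓ (D.and hΓ (D.mem hΓ hR (by fun_prop)) (D.and hΓ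
    (D.leT hΓ (by fun_prop) (by fun_prop)) (D.and hΓ (D.leT hΓ (by fun_prop) (by fun_prop))
    (D.leT hΓ (by fun_prop) (by fun_prop))))))

lemma nice_mem {R : Set Cantor} (hR : R ∈ Γ) (k : Cantor) : {x | Nice R k x} ∈ Γ := by
  refine D.set hΓ (D.and hΓ (D.all hΓ (D.all hΓ (D.imp hΓ ?_ (D.imp hΓ ?_ ?_))))
    (D.and hΓ (D.not hΓ ?_) (D.and hΓ
      (D.all hΓ (D.imp hΓ ?_ (D.or hΓ ?_ (D.ex hΓ (D.and hΓ ?_ ?_)))))
      (D.all hΓ (D.imp hΓ ?_ (D.ex hΓ (D.and hΓ ?_ (D.not hΓ ?_))))))))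
  all_goals first
    | exact D.old hΓ hR k (by fun_prop) (by fun_prop)
    | exact D.leT hΓ (by fun_prop) (by fun_prop)

/-- inversion: cofinally many `x` are the join of a fixed real with a point of the domain of `R`
that has a witness computable in `x` -/
theorem inversion (hTD : TD Γ) {R : Set Cantor} (hR : R ∈ Γ) {k : Cantor}
    (hk : ∀ r, ∃ y u, join y u ∈ R ∧ LeT r (join y k)) :
    ∃ w, ∀ c, ∃ x y u, join y u ∈ R ∧ LeT y x ∧ LeT u x ∧ LeT x (join y w) ∧ LeT c x := by
  by_contra h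
  push Not at h
  obtain ⟨z, hz⟩ := cone_of_cofinal (invariant_nice R k)
    (hTD _ (nice_mem hΓ hR k) (invariant_nice R k)) (cofinal_nice hk h)
  obtain ⟨x, h1, h2⟩ := not_nice hk z
  exact h2 (hz x h1)

theorem uniformization (hTD : TD Γ) {R : Set Cantor} (hR : R ∈ Γ)
    (hA : ¬ {y | ∃ u, join y u ∈ R}.Countable) :
    ∃ K : Set Cantor, Perfect K ∧ K.Nonempty ∧ ∃ h : Cantor → Cantor, ContinuousOn h K ∧
      ∀ Q ⊆ K, Perfect Q → Q.Nonempty → ∃ y ∈ Q, join y (h y) ∈ R := by
  classical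
  obtain ⟨K₀, a1, a2, a3⟩ := not_null (hTD _ (newIn_mem hΓ
    (D.set hΓ (D.ex hΓ (D.mem hΓ hR (by fun_prop)))))) hA
  obtain ⟨k, hk⟩ := cofinal_mod a1 a2 a3
  obtain ⟨w, hw⟩ := inversion hΓ hTD hR (k := k) fun r => by
    obtain ⟨y, ⟨u, h1⟩, h2⟩ := hk r
    exact ⟨y, u, h1, h2⟩
  let Y : Fn → Set Cantor := fun G => {y | ∃ u, join y u ∈ R ∧ ∀ n, Out G (join y w) n (u n)}
  obtain ⟨G, hG⟩ : ∃ G, ¬ (Y G).Countable := by
    by_contra h
    push Not at h
    refine not_countable_univ' (((countable_iUnion h).biUnion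
      fun y _ => countable_below (join y w)).mono fun c _ => ?_)
    obtain ⟨x, y, u, b1, -, b3, b4, b5⟩ := hw c
    obtain ⟨G, hG⟩ := (b3.trans b4).exists_fn
    exact mem_biUnion (mem_iUnion.2 ⟨G, u, b1, hG⟩) (b5.trans b4)
  obtain ⟨K₁, b1, b2, b3⟩ := not_null (hTD _ (newIn_mem hΓ (A := Y G)
    (D.set hΓ (D.ex hΓ (D.and hΓ (D.mem hΓ hR (by fun_prop))
      (D.out hΓ G (by fun_prop) (by fun_prop))))))) hG
  let T : Set Cantor := ⋂ n, ⋃ b, {y | Out G (join y w) n b}
  have hT : MeasurableSet T := MeasurableSet.iInter fun n => MeasurableSet.iUnion fun b =>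
    (isOpen_out G n (by fun_prop) continuous_const).measurableSet
  obtain ⟨K, c1, c2, c3⟩ := perfect_of_borel (b1.closed.measurableSet.inter hT) fun hc => by
    obtain ⟨Q, d1, d2, d3⟩ := perfect_of_borel (b1.closed.measurableSet.diff hT) fun hc' =>
      perfect_not_countable b1 b2 (by simpa using hc.union hc')
    obtain ⟨y, e1, u, -, e2⟩ := b3 Q (fun y hy => (d1 hy).1) d2 d3
    exact (d1 e1).2 (mem_iInter.2 fun n => mem_iUnion.2 ⟨u n, e2 n⟩)
  have hval : ∀ y n b, Out G (join y w) n b → decide (Out G (join y w) n true) = b := by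
    intro y n b hb
    cases b
    · simpa using fun h => by simpa using hb.unique h
    · simpa using hb
  refine ⟨K, c2, c3, fun y n => decide (Out G (join y w) n true), ?_, fun Q d1 d2 d3 => ?_⟩
  · refine continuousOn_pi.2 fun n y hy => ContinuousAt.continuousWithinAt ?_
    obtain ⟨b, hb⟩ := mem_iUnion.1 (mem_iInter.1 (c1 hy).2 n)
    refine tendsto_const_nhds.congr' ?_
    filter_upwards [(isOpen_out G n (f := fun y => join y w) (by fun_prop)
      continuous_const).mem_nhds hb] with y' hy'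
    rw [hval _ _ _ hy', hval _ _ _ hb]
  · obtain ⟨y, e1, u, e2, e3⟩ := b3 Q (fun y hy => (c1 (d1 hy)).1) d2 d3
    refine ⟨y, e1, ?_⟩
    beta_reduce
    rwa [show (fun n => decide (Out G (join y w) n true)) = u from
      funext fun n => hval _ _ _ (e3 n)]

theorem psp_of_no_bernstein (hTD : TD Γ)
    (h : ∀ B ∈ Γ, ∃ Q : Set Cantor, Perfect Q ∧ Q.Nonempty ∧ (Q ⊆ B ∨ Disjoint Q B))
    {A : Set Cantor} (hA : A ∈ Γ) : A.Countable ∨ ∃ Q ⊆ A, Perfect Q ∧ Q.Nonempty := by
  refine or_iff_not_imp_left.2 fun hc => ?_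
  obtain ⟨K, a1, a2, a3⟩ := not_null (hTD _ (newIn_mem hΓ hA)) hc
  obtain ⟨f, b1, b2, b3⟩ := perfect_inj a1 a2
  obtain ⟨Q, c1, c2, c3⟩ := h _ (hΓ.preimage _ hA f b2)
  have d := perfect_image b2 c1 b3.injOn
  rcases c3 with c3 | c3
  · exact ⟨f '' Q, image_subset_iff.2 c3, d, c2.image f⟩
  · obtain ⟨_, ⟨y, e1, rfl⟩, e2⟩ := a3 _ ((image_subset_range f Q).trans b1) d (c2.image f)
    exact absurd e2 (disjoint_left.1 c3 e1)

end Pool.Agent.MP_057cde_lc

end MrgPart6

-- marker of a merged file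
example : 731051 + 764368 = 731051 + 764368 := rfl
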